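import Mathlib

/-! # FD39/Top (MP_82a190_co, helper39): the value δ = 1 is in the first set (Mathlib only) -/

namespace Pool.Agent.FD39

open Finset

theorem deg_lt (k n : ℕ) (hk : 2 ≤ k) (hn : k ≤ n) (G : Finset (Finset (Fin n)))
    (hG : ∀ e ∈ G, e.card = k) :
    ∃ S : Finset (Fin n), S.card = k - 1 ∧ (G.filter (fun e => S ⊆ e)).card < n := by
  obtain ⟨S, -, hS⟩ := Finset.exists_subset_card_eq (s := (Finset.univ : Finset (Fin n))) (n := k - 1)
    (by rw [Finset.card_univ, Fintype.card_fin]; omega)
  refine ⟨S, hS, ?_⟩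
  have h1 : G.filter (fun e => S ⊆ e) ⊆ (Finset.univ \ S).image (fun x => insert x S) := by
    intro e he
    rw [Finset.mem_filter] at he
    have h2 : (e \ S).card = 1 := by
      rw [Finset.card_sdiff_of_subset he.2, hG e he.1, hS]
      omega
    obtain ⟨x, hx⟩ := Finset.card_eq_one.1 h2
    have hx2 : x ∈ e \ S := by rw [hx]; exact Finset.mem_singleton_self x
    rw [Finset.mem_sdiff] at hx2
    rw [Finset.mem_image]
    refine ⟨x, Finset.mem_sdiff.2 ⟨Finset.mem_univ _, hx2.2⟩, ?_⟩
    refine Finset.eq_of_subset_of_card_le ?_ ?_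
    · intro z hz
      rcases Finset.mem_insert.1 hz with rfl | hz
      · exact hx2.1
      · exact he.2 hz
    · rw [Finset.card_insert_of_notMem hx2.2, hS, hG e he.1]
      omega
  have h2 := (Finset.card_le_card h1).trans Finset.card_image_le
  rw [Finset.card_sdiff_of_subset (Finset.subset_univ _), Finset.card_univ, Fintype.card_fin, hS] at h2
  omega

end Pool.Agent.FD39
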