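import Mathlib

/-! # FD39/Bonami (MP_82a190_co, helper39): the (2,4)-inequality of Bonami on the cube (Mathlib only)

Points of the cube are the subsets `ε` of `S`; characters `χ_T(ε) = (-1)^|T ∩ ε|`, `T ⊆ S`.

`bonami4`. Induction on `S` (`Finset.induction_on`), for all `d` and `c`. `S = ∅`: only `T = ε = ∅`, both sides
`c(∅)^4 ≤ 9^d c(∅)^4`. Step `S = insert i S'`: split the sum over `T` (`Finset.sum_powerset_insert`) and over `ε`:
with `g(ε) = ∑_{T ⊆ S'} c T χ_T(ε)` and `h(ε) = ∑_{T ⊆ S'} c (insert i T) χ_T(ε)` (for `ε ⊆ S'`) the values of `f` are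
`f(ε) = g(ε) + h(ε)`, `f(insert i ε) = g(ε) - h(ε)`. So
`∑ f^4 = ∑_{ε ⊆ S'} ((g+h)^4 + (g-h)^4) = 2 ∑ (g^4 + 6 g²h² + h^4)`.
If `d = 0`: `h = 0` (coefficients `c (insert i T)` vanish), use induction for `g`. If `d = d'+1`: the coefficients of `h`
vanish for `|T| > d'`. By induction (`m = |S'|`, `a = ∑ c(T)²`, `b = ∑ c(insert i T)²`, sums over `T ⊆ S'`)
`∑ g^4 ≤ 9^d 2^m a²`, `∑ h^4 ≤ 9^(d-1) 2^m b²`, and by Cauchy-Schwarz `(∑ g²h²)² ≤ ∑ g^4 ∑ h^4 ≤ (9^d 2^m a b / 3)²`, so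
`∑ g²h² ≤ 9^d 2^m a b / 3`. Sum: `2 · 9^d 2^m (a² + 2ab + b²/9) ≤ 9^d 2^(m+1) (a+b)²`.

`parseval`: `∑_ε (∑_T c T χ_T(ε))² = 2^|S| ∑ c(T)²` (same induction: `(g+h)² + (g-h)² = 2g² + 2h²`).

`norm21`: with `A1 = ∑|f|`, `A2 = ∑ f²`, `A4 = ∑ f^4`: Cauchy-Schwarz twice, `A2² ≤ A1 · ∑|f|³` and
`(∑|f|³)² ≤ A2 · A4`, so `A2^4 ≤ A1² A2 A4`, hence `A2³ ≤ A1² A4` (if `A2 = 0` trivial). With `bonami4` and `parseval`
`A4 ≤ 9^d 2^|S| (A2/2^|S|)²`, so `A2 · 2^|S| ≤ 9^d A1²`, which with `parseval` is the claim.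
-/

namespace Pool.Agent.FD39

open Finset

variable {N : Type*} [DecidableEq N]

/-- the function with coefficients `c` -/
private def ff (S : Finset N) (c : Finset N → ℝ) (ε : Finset N) : ℝ :=
  ∑ T ∈ S.powerset, c T * (-1 : ℝ) ^ (T ∩ ε).card

private theorem ff_split {i : N} {S : Finset N} (hi : i ∉ S) (c : Finset N → ℝ) {ε : Finset N}
    (hε : ε ⊆ S) :
    ff (insert i S) c ε = ff S c ε + ff S (fun T => c (insert i T)) ε := by
  unfold ff
  rw [Finset.sum_powerset_insert hi]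
  congr 1
  refine Finset.sum_congr rfl fun T hT => ?_
  have h1 : insert i T ∩ ε = T ∩ ε := by
    rw [Finset.insert_inter_of_notMem]
    exact fun h => hi (hε h)
  rw [h1]

private theorem ff_split' {i : N} {S : Finset N} (hi : i ∉ S) (c : Finset N → ℝ) {ε : Finset N}
    (hε : ε ⊆ S) :
    ff (insert i S) c (insert i ε) = ff S c ε - ff S (fun T => c (insert i T)) ε := by
  unfold ff
  rw [Finset.sum_powerset_insert hi, sub_eq_add_neg, ← Finset.sum_neg_distrib]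
  congr 1
  · refine Finset.sum_congr rfl fun T hT => ?_
    have h1 : T ∩ insert i ε = T ∩ ε := by
      rw [Finset.inter_insert_of_notMem]
      exact fun h => hi (Finset.mem_powerset.1 hT h)
    rw [h1]
  · refine Finset.sum_congr rfl fun T hT => ?_
    have h1 : insert i T ∩ insert i ε = insert i (T ∩ ε) := by
      rw [← Finset.insert_inter_distrib]
    rw [h1, Finset.card_insert_of_notMem (fun h => hi (hε (Finset.mem_inter.1 h).2)), pow_succ]
    ring

private theorem parseval' (S : Finset N) : ∀ (c : Finset N → ℝ),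
    ∑ ε ∈ S.powerset, (ff S c ε) ^ 2 = 2 ^ S.card * ∑ T ∈ S.powerset, (c T) ^ 2 := by
  induction S using Finset.induction_on with
  | empty => intro c; simp [ff]
  | insert i S hi ih =>
    intro c
    rw [Finset.sum_powerset_insert hi, Finset.sum_powerset_insert hi, ← Finset.sum_add_distrib]
    have h1 : ∀ ε ∈ S.powerset, (ff (insert i S) c ε) ^ 2 + (ff (insert i S) c (insert i ε)) ^ 2 =
        2 * (ff S c ε) ^ 2 + 2 * (ff S (fun T => c (insert i T)) ε) ^ 2 := by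
      intro ε hε
      rw [ff_split hi c (Finset.mem_powerset.1 hε), ff_split' hi c (Finset.mem_powerset.1 hε)]
      ring
    rw [Finset.sum_congr rfl h1, Finset.sum_add_distrib, ← Finset.mul_sum, ← Finset.mul_sum, ih, ih,
      Finset.card_insert_of_notMem hi]
    ring

private theorem bonami' (S : Finset N) : ∀ (d : ℕ) (c : Finset N → ℝ),
    (∀ T, d < T.card → c T = 0) →
    ∑ ε ∈ S.powerset, (ff S c ε) ^ 4 ≤ 9 ^ d * 2 ^ S.card * (∑ T ∈ S.powerset, (c T) ^ 2) ^ 2 := by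
  induction S using Finset.induction_on with
  | empty =>
    intro d c _
    have h9 : (1 : ℝ) ≤ 9 ^ d := one_le_pow₀ (by norm_num)
    simp only [ff, Finset.powerset_empty, Finset.sum_singleton, Finset.card_empty, pow_zero, mul_one,
      Finset.empty_inter]
    have h4 : 0 ≤ (c ∅) ^ 4 := by positivity
    nlinarith
  | insert i S hi ih =>
    intro d c hc
    rw [Finset.sum_powerset_insert hi, Finset.sum_powerset_insert hi, ← Finset.sum_add_distrib]
    set g := ff S c with hg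
    set h := ff S (fun T => c (insert i T)) with hh
    have h1 : ∀ ε ∈ S.powerset, (ff (insert i S) c ε) ^ 4 + (ff (insert i S) c (insert i ε)) ^ 4 =
        2 * (g ε) ^ 4 + 12 * ((g ε) ^ 2 * (h ε) ^ 2) + 2 * (h ε) ^ 4 := by
      intro ε hε
      rw [ff_split hi c (Finset.mem_powerset.1 hε), ff_split' hi c (Finset.mem_powerset.1 hε)]
      ring
    rw [Finset.sum_congr rfl h1, Finset.sum_add_distrib, Finset.sum_add_distrib, ← Finset.mul_sum,
      ← Finset.mul_sum, ← Finset.mul_sum, Finset.card_insert_of_notMem hi]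
    set a := ∑ T ∈ S.powerset, (c T) ^ 2 with ha
    set b := ∑ T ∈ S.powerset, (c (insert i T)) ^ 2 with hb
    have ha0 : 0 ≤ a := Finset.sum_nonneg fun _ _ => sq_nonneg _
    have hb0 : 0 ≤ b := Finset.sum_nonneg fun _ _ => sq_nonneg _
    have hG := ih d c hc
    rw [← hg, ← ha] at hG
    have hm : (0 : ℝ) < 2 ^ S.card := by positivity
    rcases d with _ | d
    · -- h = 0
      have hz : ∀ T ∈ S.powerset, c (insert i T) = 0 := by
        intro T hT
        refine hc _ ?_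
        rw [Finset.card_insert_of_notMem fun hT2 => hi (Finset.mem_powerset.1 hT hT2)]
        omega
      have hb : b = 0 := Finset.sum_eq_zero fun T hT => by rw [hz T hT]; norm_num
      have hh0 : ∀ ε, h ε = 0 := by
        intro ε
        rw [hh]
        exact Finset.sum_eq_zero fun T hT => by
          show c (insert i T) * _ = 0
          rw [hz T hT, zero_mul]
      have e1 : ∑ ε ∈ S.powerset, (g ε) ^ 2 * (h ε) ^ 2 = 0 :=
        Finset.sum_eq_zero fun ε _ => by rw [hh0]; ring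
      have e2 : ∑ ε ∈ S.powerset, (h ε) ^ 4 = 0 :=
        Finset.sum_eq_zero fun ε _ => by rw [hh0]; ring
      rw [e1, e2, hb, pow_succ]
      nlinarith
    · have hH : ∑ ε ∈ S.powerset, (h ε) ^ 4 ≤ 9 ^ d * 2 ^ S.card * b ^ 2 := by
        have hH' := ih d (fun T => if i ∈ T then 0 else c (insert i T)) ?_
        · have e1 : ∀ ε, ff S (fun T => if i ∈ T then 0 else c (insert i T)) ε = h ε := by
            intro ε
            rw [hh]
            refine Finset.sum_congr rfl fun T hT => ?_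
            show (if i ∈ T then 0 else c (insert i T)) * _ = c (insert i T) * _
            rw [if_neg fun hT2 => hi (Finset.mem_powerset.1 hT hT2)]
          have e2 : ∑ T ∈ S.powerset, (if i ∈ T then 0 else c (insert i T)) ^ 2 = b := by
            refine Finset.sum_congr rfl fun T hT => ?_
            rw [if_neg fun hT2 => hi (Finset.mem_powerset.1 hT hT2)]
          rw [e2] at hH'
          simpa only [e1] using hH'
        · intro T hT
          by_cases hiT : i ∈ T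
          · rw [if_pos hiT]
          · rw [if_neg hiT]
            refine hc _ ?_
            rw [Finset.card_insert_of_notMem hiT]
            omega
      have hCS : (∑ ε ∈ S.powerset, (g ε) ^ 2 * (h ε) ^ 2) ^ 2 ≤
          (∑ ε ∈ S.powerset, (g ε) ^ 4) * ∑ ε ∈ S.powerset, (h ε) ^ 4 := by
        have h0 := Finset.sum_mul_sq_le_sq_mul_sq S.powerset (fun ε => (g ε) ^ 2) (fun ε => (h ε) ^ 2)
        simpa only [← pow_mul] using h0
      set P := ∑ ε ∈ S.powerset, (g ε) ^ 2 * (h ε) ^ 2 with hP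
      set Q := ∑ ε ∈ S.powerset, (g ε) ^ 4 with hQ
      set R := ∑ ε ∈ S.powerset, (h ε) ^ 4 with hR
      have hQ0 : 0 ≤ Q := Finset.sum_nonneg fun _ _ => by positivity
      have hR0 : 0 ≤ R := Finset.sum_nonneg fun _ _ => by positivity
      have hP0 : 0 ≤ P := Finset.sum_nonneg fun _ _ => by positivity
      set L : ℝ := 9 ^ d * 2 ^ S.card with hL
      have hL0 : 0 < L := by positivity
      have hG' : Q ≤ 9 * L * a ^ 2 := by
        rw [hL]
        calc Q ≤ 9 ^ (d + 1) * 2 ^ S.card * a ^ 2 := hG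
          _ = 9 * (9 ^ d * 2 ^ S.card) * a ^ 2 := by rw [pow_succ]; ring
      have hPle : P ≤ 3 * L * a * b := by
        refine le_of_sq_le_sq ?_ (by positivity)
        calc P ^ 2 ≤ Q * R := hCS
          _ ≤ (9 * L * a ^ 2) * (L * b ^ 2) := mul_le_mul hG' hH hR0 (by positivity)
          _ = (3 * L * a * b) ^ 2 := by ring
      have hgoal : (9 : ℝ) ^ (d + 1) * 2 ^ (S.card + 1) * (a + b) ^ 2 = 18 * L * (a + b) ^ 2 := by
        rw [hL, pow_succ, pow_succ]; ring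
      rw [hgoal]
      have hab : 0 ≤ a * b := mul_nonneg ha0 hb0
      nlinarith [mul_nonneg hL0.le (sq_nonneg b), mul_nonneg hL0.le hab]

theorem bonami4 (S : Finset N) (d : ℕ) (c : Finset N → ℝ) (hc : ∀ T, d < T.card → c T = 0) :
    ∑ ε ∈ S.powerset, (∑ T ∈ S.powerset, c T * (-1 : ℝ) ^ (T ∩ ε).card) ^ 4 ≤
      9 ^ d * 2 ^ S.card * (∑ T ∈ S.powerset, (c T) ^ 2) ^ 2 :=
  bonami' S d c hc

theorem parseval (S : Finset N) (c : Finset N → ℝ) :
    ∑ ε ∈ S.powerset, (∑ T ∈ S.powerset, c T * (-1 : ℝ) ^ (T ∩ ε).card) ^ 2 =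
      2 ^ S.card * ∑ T ∈ S.powerset, (c T) ^ 2 :=
  parseval' S c

private theorem cs1 (s : Finset (Finset N)) (f : Finset N → ℝ) :
    (∑ ε ∈ s, (f ε) ^ 2) ^ 3 ≤ (∑ ε ∈ s, |f ε|) ^ 2 * ∑ ε ∈ s, (f ε) ^ 4 := by
  set A1 := ∑ ε ∈ s, |f ε| with hA1
  set A2 := ∑ ε ∈ s, (f ε) ^ 2 with hA2
  set A4 := ∑ ε ∈ s, (f ε) ^ 4 with hA4
  set A3 := ∑ ε ∈ s, |f ε| ^ 3 with hA3
  have h1 : 0 ≤ A1 := Finset.sum_nonneg fun _ _ => abs_nonneg _
  have h2 : 0 ≤ A2 := Finset.sum_nonneg fun _ _ => sq_nonneg _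
  have h3 : 0 ≤ A3 := Finset.sum_nonneg fun _ _ => by positivity
  have h4 : 0 ≤ A4 := Finset.sum_nonneg fun _ _ => by positivity
  -- A2^2 ≤ A1 A3
  have e1 : A2 ^ 2 ≤ A1 * A3 := by
    have h0 := Finset.sum_mul_sq_le_sq_mul_sq s (fun ε => Real.sqrt |f ε|)
      (fun ε => Real.sqrt (|f ε| ^ 3))
    have g1 : ∀ ε, Real.sqrt |f ε| * Real.sqrt (|f ε| ^ 3) = (f ε) ^ 2 := by
      intro ε
      rw [← Real.sqrt_mul (abs_nonneg _), show |f ε| * |f ε| ^ 3 = ((f ε) ^ 2) ^ 2 by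
        rw [← sq_abs (f ε)]; ring]
      exact Real.sqrt_sq (sq_nonneg _)
    have g2 : ∀ ε, (Real.sqrt |f ε|) ^ 2 = |f ε| := fun ε => Real.sq_sqrt (abs_nonneg _)
    have g3 : ∀ ε, (Real.sqrt (|f ε| ^ 3)) ^ 2 = |f ε| ^ 3 := fun ε =>
      Real.sq_sqrt (by positivity)
    simpa only [g1, g2, g3] using h0
  -- A3^2 ≤ A2 A4
  have e2 : A3 ^ 2 ≤ A2 * A4 := by
    have h0 := Finset.sum_mul_sq_le_sq_mul_sq s (fun ε => |f ε|) (fun ε => (f ε) ^ 2)
    have g1 : ∀ ε, |f ε| * (f ε) ^ 2 = |f ε| ^ 3 := by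
      intro ε; rw [← sq_abs (f ε)]; ring
    have g2 : ∀ ε, |f ε| ^ 2 = (f ε) ^ 2 := fun ε => sq_abs _
    have g3 : ∀ ε, ((f ε) ^ 2) ^ 2 = (f ε) ^ 4 := fun ε => by ring
    simpa only [g1, g2, g3] using h0
  rcases eq_or_lt_of_le h2 with h5 | h5
  · rw [← h5, zero_pow (by norm_num)]
    exact mul_nonneg (sq_nonneg _) h4
  · have e3 : A2 ^ 4 ≤ A1 ^ 2 * (A2 * A4) := by
      calc A2 ^ 4 = (A2 ^ 2) ^ 2 := by ring
        _ ≤ (A1 * A3) ^ 2 := pow_le_pow_left₀ (by positivity) e1 2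
        _ = A1 ^ 2 * A3 ^ 2 := by ring
        _ ≤ A1 ^ 2 * (A2 * A4) := mul_le_mul_of_nonneg_left e2 (by positivity)
    refine le_of_mul_le_mul_left ?_ h5
    calc A2 * A2 ^ 3 = A2 ^ 4 := by ring
      _ ≤ A1 ^ 2 * (A2 * A4) := e3
      _ = A2 * (A1 ^ 2 * A4) := by ring

theorem norm21 (S : Finset N) (d : ℕ) (c : Finset N → ℝ) (hc : ∀ T, d < T.card → c T = 0) :
    4 ^ S.card * ∑ T ∈ S.powerset, (c T) ^ 2 ≤
      9 ^ d * (∑ ε ∈ S.powerset, |∑ T ∈ S.powerset, c T * (-1 : ℝ) ^ (T ∩ ε).card|) ^ 2 := by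
  have h1 := cs1 S.powerset (ff S c)
  have h2 := bonami' S d c hc
  have h3 := parseval' S c
  change 4 ^ S.card * ∑ T ∈ S.powerset, (c T) ^ 2 ≤ 9 ^ d * (∑ ε ∈ S.powerset, |ff S c ε|) ^ 2
  set A1 := ∑ ε ∈ S.powerset, |ff S c ε| with hA1
  set A4 := ∑ ε ∈ S.powerset, (ff S c ε) ^ 4 with hA4
  set a := ∑ T ∈ S.powerset, (c T) ^ 2 with ha
  have ha0 : 0 ≤ a := Finset.sum_nonneg fun _ _ => sq_nonneg _
  rw [h3] at h1
  set m : ℝ := 2 ^ S.card with hm
  have hm0 : 0 < m := by positivity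
  have h4 : (4 : ℝ) ^ S.card = m ^ 2 := by
    rw [hm, ← pow_mul, mul_comm, pow_mul]; norm_num
  rw [h4]
  rcases eq_or_lt_of_le ha0 with h5 | h5
  · rw [← h5, mul_zero]
    exact mul_nonneg (by positivity) (sq_nonneg _)
  · have h6 : m * a ^ 2 * (m ^ 2 * a) ≤ m * a ^ 2 * (9 ^ d * A1 ^ 2) := by
      calc m * a ^ 2 * (m ^ 2 * a) = (m * a) ^ 3 := by ring
        _ ≤ A1 ^ 2 * A4 := h1
        _ ≤ A1 ^ 2 * (9 ^ d * m * a ^ 2) := mul_le_mul_of_nonneg_left h2 (by positivity)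
        _ = m * a ^ 2 * (9 ^ d * A1 ^ 2) := by ring
    exact le_of_mul_le_mul_left h6 (by positivity)

end Pool.Agent.FD39
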