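import Pool.Agent.FD39.Sym

/-! # FD39/Chain (MP_82a190_co, helper39): the chain of differences

Write `N(J) = ∑ s |DJ y J (R0 \ J) ∅ s|` with `R0 = univ.erase (Fin.last k)` and `Z = ∑ s |zs y ((st univ ∅ ∅).map s)|`.

(a) `DJ_norm_le`: triangle inequality and `sum_card_eq`: all `st (J ∪ X) η B`, `η ⊆ J`, have
    `|J ∪ X| + |B|` elements (the three parts of `st` are disjoint).
(b) `DJ_zs`: for `J` disjoint from `X'` : `DJ (zs y) J X' ∅ s = ∑ i ∈ X', DJ y J (X'.erase i) ∅ s`.
    Proof: the elements of `st (J ∪ X') η ∅` are the `a_i` (`i ∈ X'` or `i ∈ J \ η`) and the `a'_i` (`i ∈ η`); deleting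
    `a_i`, `i ∈ X'`, gives the right-hand side, and for `i ∈ J` the terms in which the `i`-th point is deleted cancel in
    pairs `η ↔ η Δ {i}` (`Finset.sum_involution`, or `Finset.sum_powerset_insert` for `J = insert i (J.erase i)`).
(c) `DJ_diff`: `J ∌ i`, `i ∈ X`, `c ∉ J ∪ X`, `J` disjoint from `X`: then
    `∑ s |DJ y J X ∅ s - DJ y J ((insert c X).erase i) ∅ s| = ∑ s |DJ y (insert i J) (X.erase i) ∅ s|`.
    Proof: substitute `s ↦ τ.trans s`, `τ` the swap of the slots `a_c` and `a'_i`, in the left-hand side: the first term does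
    not change (its sets contain neither `a_c` nor `a'_i`), in the second one `a_c` is replaced by `a'_i`, so the
    difference becomes `∑_{η ⊆ J} (-1)^|η| (y(st (J ∪ X) η ∅) - y(st (J ∪ X) (insert i η) ∅))`
    `= DJ y (insert i J) (X.erase i) ∅` (`Finset.sum_powerset_insert`, `insert i J ∪ X.erase i = J ∪ X`).
(d) Step: `J ⊆ R0`, `|J| = j < k`, `X = R0 \ J` (so `|X| = k - j`), `c = Fin.last k`. From (b) with `X' = insert c X`:
    `(k+1-j) DJ y J X = DJ (zs y) J (insert c X) + ∑_{i ∈ X} (DJ y J X - DJ y J ((insert c X).erase i))`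
    (the term `i = c` of (b) is `DJ y J X`). With (a) (`J ∪ insert c X = univ`) and (c), and `sum_DJ_eq` to replace
    `insert i J` by any `J' ⊆ R0` with `j+1` elements: `(k+1-j) N(J) ≤ 2^j Z + (k-j) N(J')`.
(e) Telescope over `j = 0, …, d-1`: `(k+1) N(∅) ≤ (2^0 + … + 2^(d-1)) Z + (k+1-d) N(J)`, `|J| = d ≤ k`. (Induction on
    `d`; choose the sets `J` by `Finset.exists_subset_card_eq` or remove one element of `J`.) `N(∅)` is the left side.
-/

namespace Pool.Agent.FD39

open Finset

variable {V : Type*} [Fintype V] [DecidableEq V] {k : ℕ}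

private theorem ea_ap (i : Fin (k + 1)) : ea k i = Sum.inl i := rfl
private theorem ea'_ap (i : Fin (k + 1)) : ea' k i = Sum.inr (Sum.inl i) := rfl
private theorem eb_ap (i : Fin k) : eb k i = Sum.inr (Sum.inr i) := rfl

private theorem mem_st_a {U ε : Finset (Fin (k + 1))} {B : Finset (Fin k)} {i : Fin (k + 1)} :
    (Sum.inl i : Sl k) ∈ st U ε B ↔ i ∈ U ∧ i ∉ ε := by
  simp [st, ea_ap, ea'_ap, eb_ap]

private theorem mem_st_a' {U ε : Finset (Fin (k + 1))} {B : Finset (Fin k)} {i : Fin (k + 1)} :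
    (Sum.inr (Sum.inl i) : Sl k) ∈ st U ε B ↔ i ∈ U ∧ i ∈ ε := by
  simp [st, ea_ap, ea'_ap, eb_ap]

private theorem mem_st_b {U ε : Finset (Fin (k + 1))} {B : Finset (Fin k)} {i : Fin k} :
    (Sum.inr (Sum.inr i) : Sl k) ∈ st U ε B ↔ i ∈ B := by
  simp [st, ea_ap, ea'_ap, eb_ap]

private theorem card_st (U ε : Finset (Fin (k + 1))) (B : Finset (Fin k)) :
    (st U ε B).card = U.card + B.card := by
  unfold st
  rw [card_union_of_disjoint, card_union_of_disjoint]
  · simp only [card_map]
    rw [card_sdiff_add_card_inter]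
  · rw [disjoint_left]
    intro t ht ht'
    simp only [mem_map, ea_ap, ea'_ap] at ht ht'
    obtain ⟨a, _, rfl⟩ := ht
    obtain ⟨b, _, hb⟩ := ht'
    exact absurd hb (by simp)
  · rw [disjoint_left]
    intro t ht ht'
    simp only [mem_union, mem_map, ea_ap, ea'_ap, eb_ap] at ht ht'
    obtain ⟨b, _, rfl⟩ := ht'
    rcases ht with ⟨a, _, ha⟩ | ⟨a, _, ha⟩
    · exact absurd ha (by simp)
    · exact absurd ha (by simp)

theorem DJ_norm_le (g : Finset V → ℝ) (J X : Finset (Fin (k + 1))) (B : Finset (Fin k)) (hX : Disjoint J X) :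
    ∑ s : Sl k ↪ V, |DJ g J X B s| ≤ 2 ^ J.card * ∑ s : Sl k ↪ V, |g ((st (J ∪ X) ∅ B).map s)| := by
  calc ∑ s : Sl k ↪ V, |DJ g J X B s|
      ≤ ∑ s : Sl k ↪ V, ∑ η ∈ J.powerset, |g ((st (J ∪ X) η B).map s)| := by
        refine sum_le_sum fun s _ => ?_
        refine (abs_sum_le_sum_abs _ _).trans (le_of_eq ?_)
        refine sum_congr rfl fun η _ => ?_
        rw [abs_mul, abs_pow, abs_neg, abs_one, one_pow, one_mul]
    _ = ∑ η ∈ J.powerset, ∑ s : Sl k ↪ V, |g ((st (J ∪ X) η B).map s)| := sum_comm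
    _ = ∑ η ∈ J.powerset, ∑ s : Sl k ↪ V, |g ((st (J ∪ X) ∅ B).map s)| := by
        refine sum_congr rfl fun η _ => ?_
        refine sum_card_eq g _ _ ?_
        rw [card_st, card_st]
    _ = 2 ^ J.card * ∑ s : Sl k ↪ V, |g ((st (J ∪ X) ∅ B).map s)| := by
        rw [sum_const, card_powerset, nsmul_eq_mul]
        push_cast
        ring

/-- the slot of the point `i` -/
private def fe (η : Finset (Fin (k + 1))) : Fin (k + 1) ↪ Sl k :=
  ⟨fun i => if i ∈ η then Sum.inr (Sum.inl i) else Sum.inl i, by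
    intro i j h
    by_cases hi : i ∈ η <;> by_cases hj : j ∈ η <;> simp [hi, hj] at h <;> exact h⟩

private theorem fe_ap (η : Finset (Fin (k + 1))) (i : Fin (k + 1)) :
    fe η i = if i ∈ η then Sum.inr (Sum.inl i) else Sum.inl i := rfl

private theorem st_eq_map (U η : Finset (Fin (k + 1))) :
    (st U η ∅ : Finset (Sl k)) = U.map (fe η) := by
  ext t
  rcases t with i | i | i
  · rw [mem_st_a]
    simp only [mem_map, fe_ap]
    constructor
    · rintro ⟨h1, h2⟩
      exact ⟨i, h1, by simp [h2]⟩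
    · rintro ⟨j, h1, h2⟩
      by_cases hj : j ∈ η
      · simp [hj] at h2
      · simp [hj] at h2
        subst h2
        exact ⟨h1, hj⟩
  · rw [mem_st_a']
    simp only [mem_map, fe_ap]
    constructor
    · rintro ⟨h1, h2⟩
      exact ⟨i, h1, by simp [h2]⟩
    · rintro ⟨j, h1, h2⟩
      by_cases hj : j ∈ η
      · simp [hj] at h2
        subst h2
        exact ⟨h1, hj⟩
      · simp [hj] at h2
  · rw [mem_st_b]
    simp only [mem_map, fe_ap, notMem_empty, false_iff, not_exists, not_and]
    intro j _ h2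
    by_cases hj : j ∈ η
    · simp [hj] at h2
    · simp [hj] at h2

private theorem zs_st (y : Finset V → ℝ) (U η : Finset (Fin (k + 1))) (s : Sl k ↪ V) :
    zs y ((st U η ∅).map s) = ∑ i ∈ U, y ((st (U.erase i) η ∅).map s) := by
  unfold zs
  rw [sum_map, st_eq_map, sum_map]
  refine sum_congr rfl fun i _ => ?_
  rw [← map_erase, ← map_erase, st_eq_map]

private theorem st_insert_of_notMem {U η : Finset (Fin (k + 1))} {B : Finset (Fin k)} {i : Fin (k + 1)}
    (hi : i ∉ U) : (st U (insert i η) B : Finset (Sl k)) = st U η B := by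
  ext t
  rcases t with j | j | j
  · rw [mem_st_a, mem_st_a, mem_insert]
    constructor
    · rintro ⟨h1, h2⟩
      exact ⟨h1, fun h => h2 (Or.inr h)⟩
    · rintro ⟨h1, h2⟩
      refine ⟨h1, ?_⟩
      rintro (h | h)
      · exact hi (h ▸ h1)
      · exact h2 h
  · rw [mem_st_a', mem_st_a', mem_insert]
    constructor
    · rintro ⟨h1, h2 | h2⟩
      · exact absurd (h2 ▸ h1) hi
      · exact ⟨h1, h2⟩
    · rintro ⟨h1, h2⟩
      exact ⟨h1, Or.inr h2⟩
  · rw [mem_st_b, mem_st_b]

theorem DJ_zs (y : Finset V → ℝ) (J X : Finset (Fin (k + 1))) (hX : Disjoint J X) (s : Sl k ↪ V) :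
    DJ (zs y) J X ∅ s = ∑ i ∈ X, DJ y J (X.erase i) ∅ s := by
  unfold DJ
  have h1 : ∀ η ∈ J.powerset, (-1 : ℝ) ^ η.card * zs y ((st (J ∪ X) η ∅).map s) =
      ∑ i ∈ J, (-1 : ℝ) ^ η.card * y ((st ((J ∪ X).erase i) η ∅).map s) +
      ∑ i ∈ X, (-1 : ℝ) ^ η.card * y ((st ((J ∪ X).erase i) η ∅).map s) := by
    intro η _
    rw [zs_st, sum_union hX, mul_add, mul_sum, mul_sum]
  rw [sum_congr rfl h1, sum_add_distrib, sum_comm, sum_comm (s := J.powerset) (t := X)]
  have h2 : ∀ i ∈ J, ∑ η ∈ J.powerset, (-1 : ℝ) ^ η.card * y ((st ((J ∪ X).erase i) η ∅).map s) = 0 := by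
    intro i hi
    have h3 : J.powerset = (insert i (J.erase i)).powerset := by rw [insert_erase hi]
    rw [h3, sum_powerset_insert (notMem_erase i J), ← sum_add_distrib]
    refine sum_eq_zero fun η hη => ?_
    have hiη : i ∉ η := fun h => notMem_erase i J (mem_powerset.1 hη h)
    rw [card_insert_of_notMem hiη, st_insert_of_notMem (notMem_erase i _), pow_succ]
    ring
  rw [sum_eq_zero h2, zero_add]
  refine sum_congr rfl fun i hi => ?_
  have hiJ : i ∉ J := fun h => disjoint_left.1 hX h hi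
  refine sum_congr rfl fun η _ => ?_
  rw [erase_union_distrib, erase_eq_of_notMem hiJ]

theorem DJ_diff (y : Finset V → ℝ) (J X : Finset (Fin (k + 1))) (hX : Disjoint J X) (i c : Fin (k + 1))
    (hi : i ∈ X) (hcJ : c ∉ J) (hcX : c ∉ X) :
    ∑ s : Sl k ↪ V, |DJ y J X ∅ s - DJ y J ((insert c X).erase i) ∅ s| =
      ∑ s : Sl k ↪ V, |DJ y (insert i J) (X.erase i) ∅ s| := by
  have hiJ : i ∉ J := fun h => disjoint_left.1 hX h hi
  have hic : i ≠ c := fun h => hcX (h ▸ hi)
  set τ : Equiv.Perm (Sl k) := Equiv.swap (Sum.inl c) (Sum.inr (Sum.inl i)) with hτ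
  have hperm : ∀ Φ : (Sl k ↪ V) → ℝ, ∑ s : Sl k ↪ V, Φ s = ∑ s : Sl k ↪ V, Φ (τ.toEmbedding.trans s) := by
    intro Φ
    refine (Fintype.sum_equiv (Equiv.embeddingCongr τ.symm (Equiv.refl V)) _ _ ?_).symm
    intro s
    congr 1
    done
  rw [hperm]
  refine sum_congr rfl fun s _ => ?_
  congr 1
  have e1 : DJ y J X ∅ (τ.toEmbedding.trans s) = DJ y J X ∅ s := by
    unfold DJ
    refine sum_congr rfl fun η hη => ?_
    have hη' := mem_powerset.1 hη
    congr 2
    rw [← map_map]
    congr 1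
    ext t
    rw [mem_map_equiv]
    have hsy : τ.symm = τ := Equiv.symm_swap _ _
    rw [hsy]
    rcases t with j | j | j
    · by_cases hj : j = c
      · subst hj
        rw [hτ, Equiv.swap_apply_left, mem_st_a', mem_st_a]
        constructor
        · rintro ⟨_, h2⟩
          exact absurd (hη' h2) hiJ
        · rintro ⟨h1, _⟩
          rcases mem_union.1 h1 with h | h
          · exact absurd h hcJ
          · exact absurd h hcX
      · rw [hτ, Equiv.swap_apply_of_ne_of_ne (by simpa using hj) (by simp)]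
    · by_cases hj : j = i
      · subst hj
        rw [hτ, Equiv.swap_apply_right, mem_st_a', mem_st_a]
        constructor
        · rintro ⟨h1, _⟩
          rcases mem_union.1 h1 with h | h
          · exact absurd h hcJ
          · exact absurd h hcX
        · rintro ⟨_, h2⟩
          exact absurd (hη' h2) hiJ
      · rw [hτ, Equiv.swap_apply_of_ne_of_ne (by simp) (by simpa using hj)]
    · rw [hτ, Equiv.swap_apply_of_ne_of_ne (by simp) (by simp)]
  have e2 : DJ y J ((insert c X).erase i) ∅ (τ.toEmbedding.trans s) =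
      ∑ η ∈ J.powerset, (-1 : ℝ) ^ η.card * y ((st (J ∪ X) (insert i η) ∅).map s) := by
    unfold DJ
    refine sum_congr rfl fun η hη => ?_
    have hη' := mem_powerset.1 hη
    have hiη : i ∉ η := fun h => hiJ (hη' h)
    congr 2
    rw [← map_map]
    congr 1
    ext t
    rw [mem_map_equiv]
    have hsy : τ.symm = τ := Equiv.symm_swap _ _
    rw [hsy]
    rcases t with j | j | j
    · by_cases hj : j = c
      · subst hj
        rw [hτ, Equiv.swap_apply_left, mem_st_a', mem_st_a]
        constructor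
        · rintro ⟨_, h2⟩
          exact absurd h2 hiη
        · rintro ⟨h1, _⟩
          rcases mem_union.1 h1 with h | h
          · exact absurd h hcJ
          · exact absurd h hcX
      · rw [hτ, Equiv.swap_apply_of_ne_of_ne (by simpa using hj) (by simp), mem_st_a, mem_st_a]
        simp only [mem_union, mem_erase, mem_insert]
        constructor
        · rintro ⟨h1 | h1, h2⟩
          · refine ⟨Or.inl h1, ?_⟩
            rintro (h | h)
            · exact hiJ (h ▸ h1)
            · exact h2 h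
          · rcases h1.2 with h | h
            · exact absurd h hj
            · refine ⟨Or.inr h, ?_⟩
              rintro (h' | h')
              · exact h1.1 h'
              · exact h2 h'
        · rintro ⟨h1 | h1, h2⟩
          · exact ⟨Or.inl h1, fun h => h2 (Or.inr h)⟩
          · exact ⟨Or.inr ⟨fun h => h2 (Or.inl h), Or.inr h1⟩, fun h => h2 (Or.inr h)⟩
    · by_cases hj : j = i
      · subst hj
        rw [hτ, Equiv.swap_apply_right, mem_st_a', mem_st_a]
        simp only [mem_union, mem_erase, mem_insert]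
        constructor
        · rintro _
          exact ⟨Or.inr hi, by simp⟩
        · rintro _
          exact ⟨Or.inr ⟨Ne.symm hic, by simp⟩, fun h => hcJ (hη' h)⟩
      · rw [hτ, Equiv.swap_apply_of_ne_of_ne (by simp) (by simpa using hj), mem_st_a', mem_st_a']
        simp only [mem_union, mem_erase, mem_insert]
        constructor
        · rintro ⟨_, h2⟩
          exact ⟨Or.inl (hη' h2), Or.inr h2⟩
        · rintro ⟨_, h2 | h2⟩
          · exact absurd h2 hj
          · exact ⟨Or.inl (hη' h2), h2⟩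
    · rw [hτ, Equiv.swap_apply_of_ne_of_ne (by simp) (by simp), mem_st_b, mem_st_b]
  rw [e1, e2]
  unfold DJ
  rw [sum_powerset_insert hiJ, ← sum_sub_distrib, ← sum_add_distrib]
  refine sum_congr rfl fun η hη => ?_
  have hiη : i ∉ η := fun h => hiJ (mem_powerset.1 hη h)
  have hU : insert i J ∪ X.erase i = J ∪ X := by
    ext j
    simp only [mem_union, mem_insert, mem_erase]
    by_cases hj : j = i
    · subst hj; simp [hi]
    · simp [hj]
  rw [hU, card_insert_of_notMem hiη, pow_succ]
  ring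

private theorem step (y : Finset V → ℝ) (J J' : Finset (Fin (k + 1))) (hJ : J ⊆ univ.erase (Fin.last k))
    (hJ' : J' ⊆ univ.erase (Fin.last k)) (hc : J'.card = J.card + 1) :
    ((k : ℝ) + 1 - J.card) * ∑ s : Sl k ↪ V, |DJ y J (univ.erase (Fin.last k) \ J) ∅ s| ≤
      2 ^ J.card * ∑ s : Sl k ↪ V, |zs y ((st univ ∅ ∅ : Finset (Sl k)).map s)| +
        ((k : ℝ) - J.card) * ∑ s : Sl k ↪ V, |DJ y J' (univ.erase (Fin.last k) \ J') ∅ s| := by
  set R : Finset (Fin (k + 1)) := univ.erase (Fin.last k) with hR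
  set X : Finset (Fin (k + 1)) := R \ J with hXdef
  set c := Fin.last k with hcdef
  have hcR : c ∉ R := notMem_erase _ _
  have hcJ : c ∉ J := fun h => hcR (hJ h)
  have hcX : c ∉ X := fun h => hcR (mem_sdiff.1 h).1
  have hX : Disjoint J X := disjoint_sdiff
  have hRc : R.card = k := by
    rw [hR, card_erase_of_mem (mem_univ _), card_univ, Fintype.card_fin]; rfl
  have hJk : J.card ≤ k := (card_le_card hJ).trans hRc.le
  have hXc : X.card = k - J.card := by
    rw [hXdef, card_sdiff_of_subset hJ, hRc]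
  have hXc' : (X.card : ℝ) = (k : ℝ) - J.card := by
    rw [hXc, Nat.cast_sub hJk]
  have hcX' : Disjoint J (insert c X) := by
    rw [disjoint_insert_right]
    exact ⟨hcJ, hX⟩
  have key : ∀ s : Sl k ↪ V, ((k : ℝ) + 1 - J.card) * DJ y J X ∅ s =
      DJ (zs y) J (insert c X) ∅ s +
        ∑ i ∈ X, (DJ y J X ∅ s - DJ y J ((insert c X).erase i) ∅ s) := by
    intro s
    rw [DJ_zs y J (insert c X) hcX' s, sum_insert hcX, erase_insert hcX, sum_sub_distrib, sum_const,
      nsmul_eq_mul, hXc']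
    ring
  have hpos : 0 ≤ (k : ℝ) + 1 - J.card := by
    have : (J.card : ℝ) ≤ k := by exact_mod_cast hJk
    linarith
  calc ((k : ℝ) + 1 - J.card) * ∑ s : Sl k ↪ V, |DJ y J X ∅ s|
      = ∑ s : Sl k ↪ V, |((k : ℝ) + 1 - J.card) * DJ y J X ∅ s| := by
        rw [mul_sum]
        refine sum_congr rfl fun s _ => ?_
        rw [abs_mul, abs_of_nonneg hpos]
    _ ≤ ∑ s : Sl k ↪ V, (|DJ (zs y) J (insert c X) ∅ s| +
          ∑ i ∈ X, |DJ y J X ∅ s - DJ y J ((insert c X).erase i) ∅ s|) := by
        refine sum_le_sum fun s _ => ?_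
        rw [key s]
        refine (abs_add_le _ _).trans ?_
        gcongr
        exact abs_sum_le_sum_abs _ _
    _ = ∑ s : Sl k ↪ V, |DJ (zs y) J (insert c X) ∅ s| +
          ∑ i ∈ X, ∑ s : Sl k ↪ V, |DJ y J X ∅ s - DJ y J ((insert c X).erase i) ∅ s| := by
        rw [sum_add_distrib, sum_comm (s := univ) (t := X)]
    _ ≤ 2 ^ J.card * ∑ s : Sl k ↪ V, |zs y ((st univ ∅ ∅ : Finset (Sl k)).map s)| +
          ∑ i ∈ X, ∑ s : Sl k ↪ V, |DJ y J' (R \ J') ∅ s| := by
        refine add_le_add ?_ (le_of_eq ?_)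
        · have hU : J ∪ insert c X = univ := by
            ext j
            simp only [mem_union, mem_insert, mem_univ, iff_true]
            by_cases hj : j = c
            · exact Or.inr (Or.inl hj)
            · by_cases hjJ : j ∈ J
              · exact Or.inl hjJ
              · exact Or.inr (Or.inr (mem_sdiff.2 ⟨mem_erase.2 ⟨hj, mem_univ _⟩, hjJ⟩))
          have := DJ_norm_le (zs y) J (insert c X) (∅ : Finset (Fin k)) hcX' (V := V)
          rw [hU] at this
          exact this
        · refine sum_congr rfl fun i hi => ?_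
          rw [DJ_diff y J X hX i c hi hcJ hcX]
          have hiJ : i ∉ J := fun h => disjoint_left.1 hX h hi
          have hiR : i ∈ R := (mem_sdiff.1 hi).1
          refine sum_DJ_eq y (insert i J) (X.erase i) J' (R \ J') ∅ ∅ ?_ disjoint_sdiff ?_ ?_
          · rw [disjoint_insert_left]
            exact ⟨notMem_erase _ _, hX.mono_right (erase_subset _ _)⟩
          · rw [card_insert_of_notMem hiJ, hc]
          · rw [card_erase_of_mem hi, hXc, card_sdiff_of_subset hJ', hRc, hc]
            omega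
    _ = _ := by
        rw [sum_const, nsmul_eq_mul, hXc']

theorem chain (y : Finset V → ℝ) (d : ℕ) (hd : d ≤ k) (J : Finset (Fin (k + 1)))
    (hJ : J ⊆ univ.erase (Fin.last k)) (hJd : J.card = d) :
    ((k : ℝ) + 1) * ∑ s : Sl k ↪ V, |y ((st (univ.erase (Fin.last k)) ∅ ∅ : Finset (Sl k)).map s)| ≤
      (2 ^ d - 1) * ∑ s : Sl k ↪ V, |zs y ((st univ ∅ ∅ : Finset (Sl k)).map s)| +
        ((k : ℝ) + 1 - d) * ∑ s : Sl k ↪ V, |DJ y J (univ.erase (Fin.last k) \ J) ∅ s| := by
  induction d generalizing J with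
  | zero =>
    have hJ0 : J = ∅ := card_eq_zero.1 hJd
    subst hJ0
    have h : ∀ s : Sl k ↪ V, DJ y ∅ (univ.erase (Fin.last k) \ ∅) ∅ s =
        y ((st (univ.erase (Fin.last k)) ∅ ∅ : Finset (Sl k)).map s) := by
      intro s
      unfold DJ
      rw [powerset_empty, sum_singleton, card_empty, pow_zero, one_mul, sdiff_empty, empty_union]
    simp only [h]
    simp
  | succ d ih =>
    have hne : J.Nonempty := by
      rw [← card_pos, hJd]; omega
    obtain ⟨a, ha⟩ := hne
    have hJ1 : J.erase a ⊆ univ.erase (Fin.last k) := (erase_subset _ _).trans hJ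
    have hJ1c : (J.erase a).card = d := by
      rw [card_erase_of_mem ha, hJd]; rfl
    have h1 := ih (by omega) (J.erase a) hJ1 hJ1c
    have h2 := step y (J.erase a) J hJ1 hJ (by rw [hJ1c, hJd])
    rw [hJ1c] at h2
    push_cast
    have h3 : ((2 : ℝ) ^ (d + 1) - 1) = (2 ^ d - 1) + 2 ^ d := by ring
    rw [h3, add_mul]
    have h4 : ((k : ℝ) + 1 - (d + 1)) = (k : ℝ) - d := by ring
    rw [h4]
    linarith

end Pool.Agent.FD39
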