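import Pool.Agent.FD39.Bonami

/-! # FD39/Cube (MP_82a190_co, helper39): top coefficients of a function of degree d on the cube

`N` a finite type, `f(ε) = ∑_{|U| = d} h(U, U ∩ ε)` for `ε ⊆ N`.

STEP 1 (expansion). For `U` and `g : Finset N → ℝ`: `g(U ∩ ε) = ∑_{T ⊆ U} g^(T) (-1)^|T ∩ ε|` with
`g^(T) = 2^(-|U|) ∑_{η ⊆ U} (-1)^|T ∩ η| g(η)` (orthogonality: `∑_{T ⊆ U} (-1)^|T ∩ (η Δ (U ∩ ε))| = 0` unless
`η = U ∩ ε`; or induction on `U`). So `f(ε) = ∑_T c T (-1)^|T ∩ ε|` with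
`c T = ∑_{|U| = d, T ⊆ U} 2^(-d) ∑_{η ⊆ U} (-1)^|T ∩ η| h(U, η)`, which is `0` for `|T| > d`, and for `|T| = d` only
`U = T` occurs: `c T = 2^(-d) ∑_{η ⊆ T} (-1)^|η| h(T, η)`.
STEP 2. `norm21` with `S = univ`: `4^|N| ∑_T (c T)² ≤ 9^d (∑_ε |f(ε)|)²`. Cauchy-Schwarz over the `C(|N|,d)` sets `T` with
`|T| = d`: `(∑_{|T|=d} |c T|)² ≤ C(|N|,d) ∑ (c T)²`. Take square roots and multiply by `2^d`:
`∑_{|T|=d} |∑_{η ⊆ T} (-1)^|η| h(T,η)| ≤ 2^d 3^d √C(|N|,d) 2^(-|N|) ∑_ε |f(ε)|`.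
-/

namespace Pool.Agent.FD39

open Finset

private theorem ct_sign {N : Type*} [DecidableEq N] (T η : Finset N) :
    (-1 : ℝ) ^ (T ∩ η).card = ∏ i ∈ T, if i ∈ η then (-1 : ℝ) else 1 := by
  rw [prod_ite, prod_const, prod_const_one, mul_one, filter_mem_eq_inter]

private theorem ct_orth {N : Type*} [DecidableEq N] (U η ε : Finset N) (hη : η ⊆ U) :
    ∑ T ∈ U.powerset, (-1 : ℝ) ^ (T ∩ η).card * (-1 : ℝ) ^ (T ∩ ε).card =
      if U ∩ ε = η then 2 ^ U.card else 0 := by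
  have h1 : ∀ T, (-1 : ℝ) ^ (T ∩ η).card * (-1 : ℝ) ^ (T ∩ ε).card =
      ∏ i ∈ T, ((if i ∈ η then (-1 : ℝ) else 1) * (if i ∈ ε then (-1 : ℝ) else 1)) := by
    intro T
    rw [ct_sign, ct_sign, prod_mul_distrib]
  simp only [h1]
  rw [← prod_one_add]
  split_ifs with h
  · have h2 : ∀ i ∈ U, (1 : ℝ) + (if i ∈ η then (-1 : ℝ) else 1) *
        (if i ∈ ε then (-1 : ℝ) else 1) = 2 := by
      intro i hi
      have h3 : i ∈ η ↔ i ∈ ε := by
        rw [← h, mem_inter]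
        exact ⟨fun h => h.2, fun h => ⟨hi, h⟩⟩
      by_cases h4 : i ∈ ε
      · rw [if_pos (h3.2 h4), if_pos h4]; norm_num
      · rw [if_neg (fun h5 => h4 (h3.1 h5)), if_neg h4]; norm_num
    rw [prod_congr rfl h2, prod_const]
  · have h2 : ∃ i ∈ U, ¬ (i ∈ η ↔ i ∈ ε) := by
      by_contra hc
      push Not at hc
      apply h
      ext i
      rw [mem_inter]
      constructor
      · rintro ⟨hi, hi2⟩
        exact (hc i hi).2 hi2
      · intro hi
        exact ⟨hη hi, (hc i (hη hi)).1 hi⟩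
    obtain ⟨i, hi, hne⟩ := h2
    refine prod_eq_zero hi ?_
    by_cases h3 : i ∈ η
    · have h4 : i ∉ ε := fun h4 => hne ⟨fun _ => h4, fun _ => h3⟩
      rw [if_pos h3, if_neg h4]; norm_num
    · have h4 : i ∈ ε := by
        by_contra h4
        exact hne ⟨fun h => absurd h h3, fun h => absurd h h4⟩
      rw [if_neg h3, if_pos h4]; norm_num

theorem cube_top {N : Type*} [Fintype N] [DecidableEq N] (d : ℕ) (h : Finset N → Finset N → ℝ) :
    2 ^ (Fintype.card N) *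
        ∑ U ∈ (univ : Finset N).powersetCard d, |∑ η ∈ U.powerset, (-1 : ℝ) ^ η.card * h U η| ≤
      6 ^ d * Real.sqrt ((Fintype.card N).choose d) *
        ∑ ε : Finset N, |∑ U ∈ (univ : Finset N).powersetCard d, h U (U ∩ ε)| := by
  obtain ⟨c, hc⟩ : ∃ c : Finset N → ℝ, ∀ T, c T = ∑ U ∈ (univ : Finset N).powersetCard d,
      if T ⊆ U then (2 ^ d)⁻¹ * ∑ η ∈ U.powerset, (-1 : ℝ) ^ (T ∩ η).card * h U η else 0 :=
    ⟨_, fun _ => rfl⟩
  have hc0 : ∀ T : Finset N, d < T.card → c T = 0 := by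
    intro T hT
    rw [hc]
    refine sum_eq_zero fun U hU => ?_
    rw [mem_powersetCard] at hU
    rw [if_neg]
    intro hTU
    have := card_le_card hTU
    omega
  have hcd : ∀ T ∈ (univ : Finset N).powersetCard d,
      c T = (2 ^ d)⁻¹ * ∑ η ∈ T.powerset, (-1 : ℝ) ^ η.card * h T η := by
    intro T hT
    have hT2 := (mem_powersetCard.1 hT).2
    rw [hc, sum_eq_single_of_mem T hT]
    · rw [if_pos subset_rfl]
      congr 1
      refine sum_congr rfl fun η hη => ?_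
      rw [inter_eq_right.2 (mem_powerset.1 hη)]
    · intro U hU hne
      rw [mem_powersetCard] at hU
      rw [if_neg]
      intro hTU
      exact hne (eq_of_subset_of_card_le hTU (by omega)).symm
  have hexp : ∀ ε : Finset N, ∑ T ∈ (univ : Finset N).powerset, c T * (-1 : ℝ) ^ (T ∩ ε).card =
      ∑ U ∈ (univ : Finset N).powersetCard d, h U (U ∩ ε) := by
    intro ε
    simp only [hc, sum_mul]
    rw [sum_comm]
    refine sum_congr rfl fun U hU => ?_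
    have hUc := (mem_powersetCard.1 hU).2
    have e1 : ∑ T ∈ (univ : Finset N).powerset, (if T ⊆ U then (2 ^ d)⁻¹ *
        ∑ η ∈ U.powerset, (-1 : ℝ) ^ (T ∩ η).card * h U η else 0) * (-1 : ℝ) ^ (T ∩ ε).card =
        ∑ T ∈ U.powerset, ((2 ^ d)⁻¹ * ∑ η ∈ U.powerset, (-1 : ℝ) ^ (T ∩ η).card * h U η) *
          (-1 : ℝ) ^ (T ∩ ε).card := by
      symm
      have hsub : U.powerset ⊆ (univ : Finset N).powerset := powerset_mono.2 (subset_univ _)
      rw [← sum_subset hsub]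
      · refine sum_congr rfl fun T hT => ?_
        rw [if_pos (mem_powerset.1 hT)]
      · intro T _ hT
        rw [mem_powerset] at hT
        rw [if_neg hT, zero_mul]
    rw [e1]
    have e2 : ∀ T, ((2 ^ d)⁻¹ * ∑ η ∈ U.powerset, (-1 : ℝ) ^ (T ∩ η).card * h U η) *
        (-1 : ℝ) ^ (T ∩ ε).card = ∑ η ∈ U.powerset, (2 ^ d)⁻¹ * h U η *
          ((-1 : ℝ) ^ (T ∩ η).card * (-1 : ℝ) ^ (T ∩ ε).card) := by
      intro T
      rw [mul_sum, sum_mul]
      refine sum_congr rfl fun η _ => ?_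
      ring
    simp only [e2]
    rw [sum_comm]
    have e3 : ∀ η ∈ U.powerset, ∑ T ∈ U.powerset, (2 ^ d)⁻¹ * h U η *
        ((-1 : ℝ) ^ (T ∩ η).card * (-1 : ℝ) ^ (T ∩ ε).card) =
        if U ∩ ε = η then h U η else 0 := by
      intro η hη
      rw [← mul_sum, ct_orth U η ε (mem_powerset.1 hη), hUc]
      split_ifs with h1
      · field_simp
      · rw [mul_zero]
    rw [sum_congr rfl e3, sum_ite_eq, if_pos (mem_powerset.2 inter_subset_left)]
  have h21 := norm21 (univ : Finset N) d c hc0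
  rw [card_univ] at h21
  simp only [powerset_univ] at hexp h21
  simp only [hexp] at h21
  obtain ⟨n, hn⟩ : ∃ n, n = Fintype.card N := ⟨_, rfl⟩
  rw [← hn] at h21 ⊢
  obtain ⟨A, hA⟩ : ∃ A, A = ∑ ε : Finset N,
      |∑ U ∈ (univ : Finset N).powersetCard d, h U (U ∩ ε)| := ⟨_, rfl⟩
  have hA0 : 0 ≤ A := by rw [hA]; exact sum_nonneg fun _ _ => abs_nonneg _
  rw [← hA] at h21 ⊢
  obtain ⟨B, hB⟩ : ∃ B, B = ∑ T ∈ (univ : Finset N).powersetCard d, |c T| := ⟨_, rfl⟩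
  have hCS : B ^ 2 ≤ (n.choose d : ℝ) * ∑ T : Finset N, (c T) ^ 2 := by
    have e1 := sq_sum_le_card_mul_sum_sq (s := (univ : Finset N).powersetCard d)
      (f := fun T => |c T|)
    rw [card_powersetCard, card_univ, ← hn, ← hB] at e1
    refine e1.trans (mul_le_mul_of_nonneg_left ?_ (Nat.cast_nonneg _))
    simp only [sq_abs]
    exact sum_le_sum_of_subset_of_nonneg (subset_univ _) fun _ _ _ => sq_nonneg _
  have hsum : ∑ U ∈ (univ : Finset N).powersetCard d,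
      |∑ η ∈ U.powerset, (-1 : ℝ) ^ η.card * h U η| = 2 ^ d * B := by
    rw [hB, mul_sum]
    refine sum_congr rfl fun U hU => ?_
    rw [hcd U hU, abs_mul, abs_of_pos (by positivity : (0 : ℝ) < (2 ^ d)⁻¹), ← mul_assoc,
      mul_inv_cancel₀ (by positivity), one_mul]
  have hkey : 2 ^ n * B ≤ 3 ^ d * Real.sqrt (n.choose d) * A := by
    refine le_of_sq_le_sq ?_ (by positivity)
    have e1 : (2 ^ n * B) ^ 2 = 4 ^ n * B ^ 2 := by
      rw [mul_pow, ← pow_mul, mul_comm n 2, pow_mul]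
      norm_num
    have e2 : (3 ^ d * Real.sqrt (n.choose d) * A) ^ 2 = 9 ^ d * (n.choose d) * A ^ 2 := by
      rw [mul_pow, mul_pow, Real.sq_sqrt (Nat.cast_nonneg _), ← pow_mul, mul_comm d 2, pow_mul]
      norm_num
    rw [e1, e2]
    have e3 : (4 : ℝ) ^ n * B ^ 2 ≤ 4 ^ n * ((n.choose d : ℝ) * ∑ T : Finset N, (c T) ^ 2) :=
      mul_le_mul_of_nonneg_left hCS (by positivity)
    have e4 : (n.choose d : ℝ) * (4 ^ n * ∑ T : Finset N, (c T) ^ 2) ≤
        (n.choose d : ℝ) * (9 ^ d * A ^ 2) := mul_le_mul_of_nonneg_left h21 (Nat.cast_nonneg _)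
    linarith
  rw [hsum]
  have e5 : (6 : ℝ) ^ d = 2 ^ d * 3 ^ d := by rw [← mul_pow]; norm_num
  rw [e5]
  calc (2 : ℝ) ^ n * (2 ^ d * B) = 2 ^ d * (2 ^ n * B) := by ring
    _ ≤ 2 ^ d * (3 ^ d * Real.sqrt (n.choose d) * A) :=
        mul_le_mul_of_nonneg_left hkey (by positivity)
    _ = 2 ^ d * 3 ^ d * Real.sqrt (n.choose d) * A := by ring

end Pool.Agent.FD39
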