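import Mathlib

/-! # FD39/Defs (MP_82a190_co, helper39): the fractional side, definitions

Everything is finite. `V` is the vertex set, `y : Finset V → ℝ` a weight on `k`-sets, `zs y A` the sum of `y` over the
facets of the `(k+1)`-set `A`. Sampling is done WITHOUT replacement: `s : Sl k ↪ V` is an injective map of the set of
slots `Sl k` (`k+1` slots `a_i`, `k+1` partner slots `a'_i`, `k` slots `b_i`) into `V`; all sums run over all such `s`.
-/

namespace Pool.Agent.FD39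

open Finset

/-- sum of `y` over the facets of `A` -/
def zs {V : Type*} [DecidableEq V] (y : Finset V → ℝ) (A : Finset V) : ℝ := ∑ a ∈ A, y (A.erase a)

/-- slots: `a_0, …, a_k`, then the partners `a'_0, …, a'_k`, then `b_0, …, b_{k-1}` -/
abbrev Sl (k : ℕ) := Fin (k + 1) ⊕ (Fin (k + 1) ⊕ Fin k)

/-- the slots `a_i` -/
def ea (k : ℕ) : Fin (k + 1) ↪ Sl k := ⟨fun i => Sum.inl i, fun _ _ h => Sum.inl_injective h⟩

/-- the slots `a'_i` -/
def ea' (k : ℕ) : Fin (k + 1) ↪ Sl k :=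
  ⟨fun i => Sum.inr (Sum.inl i), fun _ _ h => Sum.inl_injective (Sum.inr_injective h)⟩

/-- the slots `b_i` -/
def eb (k : ℕ) : Fin k ↪ Sl k :=
  ⟨fun i => Sum.inr (Sum.inr i), fun _ _ h => Sum.inr_injective (Sum.inr_injective h)⟩

/-- the set of slots `{a_i : i ∈ U \ ε} ∪ {a'_i : i ∈ U ∩ ε} ∪ {b_i : i ∈ B}` -/
def st {k : ℕ} (U ε : Finset (Fin (k + 1))) (B : Finset (Fin k)) : Finset (Sl k) :=
  (U \ ε).map (ea k) ∪ (U ∩ ε).map (ea' k) ∪ B.map (eb k)

/-- the alternating sum over the cube with the pairs `(a_i, a'_i)`, `i ∈ J`, the other points being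
`a_i`, `i ∈ X`, and `b_i`, `i ∈ B` (used for `X` disjoint from `J`) -/
def DJ {V : Type*} {k : ℕ} (y : Finset V → ℝ) (J X : Finset (Fin (k + 1))) (B : Finset (Fin k))
    (s : Sl k ↪ V) : ℝ :=
  ∑ η ∈ J.powerset, (-1 : ℝ) ^ η.card * y ((st (J ∪ X) η B).map s)

end Pool.Agent.FD39
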