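import Mathlib

/-! # FD39/DivAbs (MP_82a190_co, helper39): partial division, the identity (Mathlib only)

`A` has `k+1` elements, `j = |B| ≤ k`. Put for `i ≤ j`
`Y i = ∑ U ∈ A.powersetCard (k-i), ∑ W ∈ B.powersetCard i, h U W`,
`Z i = ∑ U ∈ A.powersetCard (k+1-i), ∑ W ∈ B.powersetCard i, (∑ u ∈ U, h (U.erase u) W + ∑ w ∈ W, h U (W.erase w))`.

STEP 1 (double counting). `Z i = (i+1) * Y i + (j-i+1) * Y (i-1)`, the last term being `0` for `i = 0`:
 the pair `(U', W)`, `|U'| = k-i`, arises from `(U, u)` with `U = insert u U'`, `u ∈ A \ U'`: `k+1-(k-i) = i+1` choices;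
 the pair `(U, W')`, `|W'| = i-1`, arises from `W = insert w W'`, `w ∈ B \ W'`: `j-(i-1) = j-i+1` choices.
 (Use `Finset.sum_bij'`/`sum_sigma'` on pairs (U, u ∈ U) and (U', u ∈ A \ U'); please prove this as a separate lemma:
 for a finset `A`, `m + 1 ≤ |A|` and `f : Finset α → ℝ`:
 `∑ U ∈ A.powersetCard (m+1), ∑ u ∈ U, f (U.erase u) = (|A| - m) * ∑ U' ∈ A.powersetCard m, f U'`.
 It gives both counts, applied for fixed `W` and for fixed `U`.)
STEP 2 (telescope). `(j-i+1) * C(j,i-1) = i * C(j,i)`, so with `Y i = C(j,i) * v i` we get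
 `Z i / C(j,i) = (i+1) * v i + i * v (i-1)`, and `∑_{i ≤ j} (-1)^(j-i) ((i+1) v_i + i v_{i-1}) = (j+1) v_j`
 (induction on the length of the sum), `v j = Y j = ∑ U ∈ A.powersetCard (k-j), h U B`.
-/

namespace Pool.Agent.FD39

open Finset

private theorem dc {α : Type*} [DecidableEq α] (A : Finset α) (m : ℕ) (f : Finset α → ℝ) :
    ∑ U ∈ A.powersetCard (m + 1), ∑ u ∈ U, f (U.erase u) =
      ((A.card : ℝ) - m) * ∑ U' ∈ A.powersetCard m, f U' := by
  have h1 : ∑ U ∈ A.powersetCard (m + 1), ∑ u ∈ U, f (U.erase u) =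
      ∑ U' ∈ A.powersetCard m, ∑ _u ∈ A \ U', f U' := by
    rw [Finset.sum_sigma', Finset.sum_sigma']
    refine Finset.sum_bij' (fun x _ => ⟨x.1.erase x.2, x.2⟩) (fun x _ => ⟨insert x.2 x.1, x.2⟩)
      ?_ ?_ ?_ ?_ ?_
    · rintro ⟨U, u⟩ hx
      rw [Finset.mem_sigma, Finset.mem_powersetCard] at hx
      obtain ⟨⟨hU, hc⟩, hu⟩ := hx
      rw [Finset.mem_sigma, Finset.mem_powersetCard, Finset.mem_sdiff]
      refine ⟨⟨(Finset.erase_subset _ _).trans hU, ?_⟩, hU hu, ?_⟩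
      · show (U.erase u).card = m
        have hu' : u ∈ U := hu
        have hc' : U.card = m + 1 := hc
        rw [Finset.card_erase_of_mem hu', hc']
        rfl
      · exact Finset.notMem_erase u U
    · rintro ⟨U, u⟩ hx
      rw [Finset.mem_sigma, Finset.mem_powersetCard, Finset.mem_sdiff] at hx
      obtain ⟨⟨hU, hc⟩, hu, hu'⟩ := hx
      rw [Finset.mem_sigma, Finset.mem_powersetCard]
      refine ⟨⟨Finset.insert_subset hu hU, ?_⟩, Finset.mem_insert_self _ _⟩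
      show (insert u U).card = m + 1
      have hu'' : u ∉ U := hu'
      have hc' : U.card = m := hc
      rw [Finset.card_insert_of_notMem hu'', hc']
    · rintro ⟨U, u⟩ hx
      rw [Finset.mem_sigma] at hx
      have hu : u ∈ U := hx.2
      show (⟨insert u (U.erase u), u⟩ : (_ : Finset α) × α) = ⟨U, u⟩
      rw [Finset.insert_erase hu]
    · rintro ⟨U, u⟩ hx
      rw [Finset.mem_sigma, Finset.mem_sdiff] at hx
      have hu : u ∉ U := hx.2.2
      show (⟨(insert u U).erase u, u⟩ : (_ : Finset α) × α) = ⟨U, u⟩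
      rw [Finset.erase_insert hu]
    · rintro ⟨U, u⟩ hx
      rfl
  rw [h1, Finset.mul_sum]
  refine Finset.sum_congr rfl fun U' hU' => ?_
  rw [Finset.mem_powersetCard] at hU'
  rw [Finset.sum_const, nsmul_eq_mul, Finset.cast_card_sdiff hU'.1, hU'.2]

private theorem tele (T G : ℕ → ℝ) (j : ℕ) (h0 : G 0 = T 0)
    (hs : ∀ i, i + 1 ≤ j → G (i + 1) = T (i + 1) + T i) (n : ℕ) (hn : n ≤ j) :
    ∑ i ∈ range (n + 1), (-1 : ℝ) ^ (j - i) * G i = (-1 : ℝ) ^ (j - n) * T n := by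
  induction n with
  | zero => rw [Finset.sum_range_one, h0]
  | succ n ih =>
    rw [Finset.sum_range_succ, ih (by omega), hs n hn]
    have e : j - n = (j - (n + 1)) + 1 := by omega
    rw [e, pow_succ]
    ring

theorem div_abs {α β : Type*} [DecidableEq α] [DecidableEq β] (A : Finset α) (B : Finset β) (k : ℕ)
    (hA : A.card = k + 1) (hB : B.card ≤ k) (h : Finset α → Finset β → ℝ) :
    ((B.card : ℝ) + 1) * ∑ U ∈ A.powersetCard (k - B.card), h U B =
      ∑ i ∈ range (B.card + 1), (-1 : ℝ) ^ (B.card - i) / (B.card.choose i : ℝ) *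
        ∑ U ∈ A.powersetCard (k + 1 - i), ∑ W ∈ B.powersetCard i,
          (∑ u ∈ U, h (U.erase u) W + ∑ w ∈ W, h U (W.erase w)) := by
  obtain ⟨j, hj⟩ : ∃ j, j = B.card := ⟨_, rfl⟩
  rw [← hj] at hB ⊢
  set Y : ℕ → ℝ := fun i => ∑ U ∈ A.powersetCard (k - i), ∑ W ∈ B.powersetCard i, h U W with hY
  set Z : ℕ → ℝ := fun i => ∑ U ∈ A.powersetCard (k + 1 - i), ∑ W ∈ B.powersetCard i,
          (∑ u ∈ U, h (U.erase u) W + ∑ w ∈ W, h U (W.erase w)) with hZ
  have hZ1 : ∀ i, i ≤ j → ∑ U ∈ A.powersetCard (k + 1 - i), ∑ W ∈ B.powersetCard i,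
      ∑ u ∈ U, h (U.erase u) W = ((i : ℝ) + 1) * Y i := by
    intro i hi
    have e1 : ∑ U ∈ A.powersetCard (k + 1 - i), ∑ W ∈ B.powersetCard i,
        ∑ u ∈ U, h (U.erase u) W = ∑ W ∈ B.powersetCard i, ∑ U ∈ A.powersetCard (k + 1 - i),
        ∑ u ∈ U, h (U.erase u) W := Finset.sum_comm
    have e2 : Y i = ∑ W ∈ B.powersetCard i, ∑ U ∈ A.powersetCard (k - i), h U W :=
      Finset.sum_comm
    rw [e1, e2, Finset.mul_sum]
    refine Finset.sum_congr rfl fun W _ => ?_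
    have e : k + 1 - i = (k - i) + 1 := by omega
    rw [e, dc A (k - i) (fun U => h U W), hA, Nat.cast_sub (by omega)]
    push_cast
    ring
  have hZ2 : ∀ i, i + 1 ≤ j → ∑ U ∈ A.powersetCard (k + 1 - (i + 1)),
      ∑ W ∈ B.powersetCard (i + 1), ∑ w ∈ W, h U (W.erase w) = ((j : ℝ) - i) * Y i := by
    intro i hi
    have e : k + 1 - (i + 1) = k - i := by omega
    rw [e, hY, Finset.mul_sum]
    refine Finset.sum_congr rfl fun U _ => ?_
    rw [dc B i (fun W => h U W), ← hj]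
  have hZ0 : Z 0 = (((0 : ℕ) : ℝ) + 1) * Y 0 := by
    rw [← hZ1 0 (Nat.zero_le _)]
    show ∑ U ∈ A.powersetCard (k + 1 - 0), ∑ W ∈ B.powersetCard 0,
          (∑ u ∈ U, h (U.erase u) W + ∑ w ∈ W, h U (W.erase w)) = _
    refine Finset.sum_congr rfl fun U _ => ?_
    rw [Finset.powersetCard_zero, Finset.sum_singleton, Finset.sum_singleton,
      Finset.sum_empty, add_zero]
  have hZs : ∀ i, i + 1 ≤ j → Z (i + 1) = (((i + 1 : ℕ) : ℝ) + 1) * Y (i + 1) +
      ((j : ℝ) - i) * Y i := by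
    intro i hi
    rw [← hZ1 (i + 1) hi, ← hZ2 i hi, hZ]
    simp only [Finset.sum_add_distrib]
  have hchoose : ∀ i, i ≤ j → (0 : ℝ) < (j.choose i : ℝ) := fun i hi => by
    exact_mod_cast Nat.choose_pos hi
  set T : ℕ → ℝ := fun i => ((i : ℝ) + 1) * Y i / (j.choose i : ℝ) with hT
  have h1 := tele T (fun i => Z i / (j.choose i : ℝ)) j
    (by
      show Z 0 / (j.choose 0 : ℝ) = ((((0 : ℕ) : ℝ)) + 1) * Y 0 / (j.choose 0 : ℝ)
      rw [hZ0])
    (by
      intro i hi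
      show Z (i + 1) / (j.choose (i + 1) : ℝ) =
        (((i + 1 : ℕ) : ℝ) + 1) * Y (i + 1) / (j.choose (i + 1) : ℝ) +
          ((i : ℝ) + 1) * Y i / (j.choose i : ℝ)
      have hc : (j.choose (i + 1) : ℝ) * ((i : ℝ) + 1) = (j.choose i : ℝ) * ((j : ℝ) - i) := by
        have h2 := Nat.choose_succ_right_eq j i
        have h3 : ((j.choose (i + 1) * (i + 1) : ℕ) : ℝ) = ((j.choose i * (j - i) : ℕ) : ℝ) := by
          rw [h2]
        rw [Nat.cast_mul, Nat.cast_mul, Nat.cast_sub (by omega)] at h3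
        push_cast at h3
        exact h3
      have hp1 := hchoose (i + 1) hi
      have hp2 := hchoose i (by omega)
      rw [hZs i hi, add_div]
      congr 1
      rw [div_eq_div_iff hp1.ne' hp2.ne']
      calc ((j : ℝ) - i) * Y i * (j.choose i : ℝ) = ((j.choose i : ℝ) * ((j : ℝ) - i)) * Y i := by
            ring
        _ = ((j.choose (i + 1) : ℝ) * ((i : ℝ) + 1)) * Y i := by rw [hc]
        _ = ((i : ℝ) + 1) * Y i * (j.choose (i + 1) : ℝ) := by ring)
    j le_rfl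
  have hYj : Y j = ∑ U ∈ A.powersetCard (k - j), h U B := by
    show ∑ U ∈ A.powersetCard (k - j), ∑ W ∈ B.powersetCard j, h U W = _
    refine Finset.sum_congr rfl fun U _ => ?_
    rw [hj, Finset.powersetCard_self, Finset.sum_singleton]
  rw [Nat.sub_self, pow_zero, one_mul, hT] at h1
  simp only [Nat.choose_self, Nat.cast_one, div_one] at h1
  rw [← hYj, ← h1]
  refine Finset.sum_congr rfl fun i _ => ?_
  show (-1 : ℝ) ^ (j - i) * (Z i / (j.choose i : ℝ)) = (-1 : ℝ) ^ (j - i) / (j.choose i : ℝ) * Z i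
  ring

end Pool.Agent.FD39
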