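import Pool.Agent.FD39.Sym
import Pool.Agent.FD39.DivAbs

/-! # FD39/Div (MP_82a190_co, helper39): partial division, the bound

Let `j = |B| = k - d`. For fixed `s` apply `div_abs` with `A = univ : Finset (Fin (k+1))`, `B`, and
`h U W = y ((st U ∅ W).map s)`. Since the slots in `st U ∅ W = U.map (ea k) ∪ W.map (eb k)` (disjoint union) are the
`a_u`, `u ∈ U`, and the `b_w`, `w ∈ W`,
`zs y ((st U ∅ W).map s) = ∑ u ∈ U, h (U.erase u) W + ∑ w ∈ W, h U (W.erase w)` (lemma `zs_st`: sum over a map of an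
embedding, `Finset.sum_map`, `Finset.sum_union`, and `(I.map s).erase (s x) = (I.erase x).map s`). So
`(j+1) * ∑_U y ((st U ∅ B).map s) = ∑_{i≤j} ± 1/C(j,i) * ∑_{|U| = k+1-i} ∑_{W ⊆ B, |W| = i} zs y ((st U ∅ W).map s)`.
Take absolute values and sum over `s`: every `st U ∅ W` occurring has `k+1` elements, so by `sum_card_eq` (with
`g = zs y`) each `∑ s |zs y ((st U ∅ W).map s)|` equals `Z = ∑ s |zs y ((st univ ∅ ∅).map s)|`; there are
`C(k+1, k+1-i) * C(j,i)` of them, `C(k+1,k+1-i) = C(k+1,i)`. Total `∑_{i≤j} C(k+1,i) Z ≤ 2^(k+1) Z`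
(`Nat.sum_range_choose`).
-/

namespace Pool.Agent.FD39

open Finset

variable {V : Type*} [Fintype V] [DecidableEq V] {k : ℕ}

private theorem div_st_eq (U : Finset (Fin (k + 1))) (W : Finset (Fin k)) :
    st U ∅ W = U.map (ea k) ∪ W.map (eb k) := by
  unfold st
  rw [Finset.sdiff_empty, Finset.inter_empty, Finset.map_empty, Finset.union_empty]

private theorem div_disj (U : Finset (Fin (k + 1))) (W : Finset (Fin k)) :
    Disjoint (U.map (ea k)) (W.map (eb k)) := by
  rw [Finset.disjoint_left]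
  intro x hx hx'
  obtain ⟨u, _, rfl⟩ := Finset.mem_map.1 hx
  obtain ⟨w, _, hw⟩ := Finset.mem_map.1 hx'
  cases hw

private theorem div_card (U : Finset (Fin (k + 1))) (W : Finset (Fin k)) :
    (st U ∅ W).card = U.card + W.card := by
  rw [div_st_eq, Finset.card_union_of_disjoint (div_disj U W), Finset.card_map, Finset.card_map]

omit [Fintype V] in
private theorem div_zs (y : Finset V → ℝ) (s : Sl k ↪ V) (U : Finset (Fin (k + 1)))
    (W : Finset (Fin k)) : zs y ((st U ∅ W).map s) =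
      ∑ u ∈ U, y ((st (U.erase u) ∅ W).map s) + ∑ w ∈ W, y ((st U ∅ (W.erase w)).map s) := by
  unfold zs
  rw [Finset.sum_map]
  have h0 : ∀ x ∈ st U ∅ W, y (((st U ∅ W).map s).erase (s x)) =
      y (((st U ∅ W).erase x).map s) := by
    intro x _
    rw [Finset.map_erase]
  rw [Finset.sum_congr rfl h0, div_st_eq, Finset.sum_union (div_disj U W), Finset.sum_map,
    Finset.sum_map]
  congr 1
  · refine Finset.sum_congr rfl fun u hu => ?_
    have hn : ea k u ∉ W.map (eb k) := by
      intro hx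
      obtain ⟨w, _, hw⟩ := Finset.mem_map.1 hx
      cases hw
    rw [div_st_eq, Finset.erase_union_distrib, ← Finset.map_erase,
      Finset.erase_eq_of_notMem hn]
  · refine Finset.sum_congr rfl fun w hw => ?_
    have hn : eb k w ∉ U.map (ea k) := by
      intro hx
      obtain ⟨u, _, hu⟩ := Finset.mem_map.1 hx
      cases hu
    rw [div_st_eq, Finset.erase_union_distrib, ← Finset.map_erase (eb k),
      Finset.erase_eq_of_notMem hn]

theorem div_bound (d : ℕ) (hd : d ≤ k) (y : Finset V → ℝ) (B : Finset (Fin k)) (hB : B.card = k - d) :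
    (((k - d : ℕ) : ℝ) + 1) *
        ∑ s : Sl k ↪ V, |∑ U ∈ (univ : Finset (Fin (k + 1))).powersetCard d, y ((st U ∅ B).map s)| ≤
      2 ^ (k + 1) * ∑ s : Sl k ↪ V, |zs y ((st univ ∅ ∅ : Finset (Sl k)).map s)| := by
  obtain ⟨Z, hZ⟩ : ∃ Z : ℝ, Z = ∑ s : Sl k ↪ V, |zs y ((st univ ∅ ∅ : Finset (Sl k)).map s)| :=
    ⟨_, rfl⟩
  have hZ0 : 0 ≤ Z := by
    rw [hZ]
    exact Finset.sum_nonneg fun _ _ => abs_nonneg _
  rw [← hZ]
  have hBk : k - B.card = d := by omega
  have hcast : (((k - d : ℕ) : ℝ)) = (B.card : ℝ) := by rw [hB]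
  have h1 : ∀ s : Sl k ↪ V, ((B.card : ℝ) + 1) *
      |∑ U ∈ (univ : Finset (Fin (k + 1))).powersetCard d, y ((st U ∅ B).map s)| ≤
      ∑ i ∈ range (B.card + 1), 1 / (B.card.choose i : ℝ) *
        ∑ U ∈ (univ : Finset (Fin (k + 1))).powersetCard (k + 1 - i), ∑ W ∈ B.powersetCard i,
          |zs y ((st U ∅ W).map s)| := by
    intro s
    have h2 := div_abs (univ : Finset (Fin (k + 1))) B k
      (by rw [Finset.card_univ, Fintype.card_fin]) (by omega)
      (fun U W => y ((st U ∅ W).map s))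
    rw [hBk] at h2
    have h3 : (0 : ℝ) ≤ (B.card : ℝ) + 1 := add_nonneg (Nat.cast_nonneg _) zero_le_one
    rw [← abs_of_nonneg h3, ← abs_mul, h2]
    refine (Finset.abs_sum_le_sum_abs _ _).trans (Finset.sum_le_sum fun i _ => ?_)
    rw [abs_mul]
    have h4 : |(-1 : ℝ) ^ (B.card - i) / (B.card.choose i : ℝ)| = 1 / (B.card.choose i : ℝ) := by
      rw [abs_div, abs_pow, abs_neg, abs_one, one_pow, Nat.abs_cast]
    rw [h4]
    refine mul_le_mul_of_nonneg_left ?_ (by positivity)
    refine (Finset.abs_sum_le_sum_abs _ _).trans (Finset.sum_le_sum fun U _ => ?_)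
    refine (Finset.abs_sum_le_sum_abs _ _).trans (Finset.sum_le_sum fun W _ => ?_)
    rw [div_zs]
  have h5 : ∀ i ∈ range (B.card + 1), ∑ s : Sl k ↪ V, 1 / (B.card.choose i : ℝ) *
        ∑ U ∈ (univ : Finset (Fin (k + 1))).powersetCard (k + 1 - i), ∑ W ∈ B.powersetCard i,
          |zs y ((st U ∅ W).map s)| = ((k + 1).choose i : ℝ) * Z := by
    intro i hi
    have hi' : i ≤ B.card := Nat.lt_succ_iff.1 (Finset.mem_range.1 hi)
    rw [← Finset.mul_sum, Finset.sum_comm]
    have h6 : ∀ U ∈ (univ : Finset (Fin (k + 1))).powersetCard (k + 1 - i),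
        ∑ s : Sl k ↪ V, ∑ W ∈ B.powersetCard i, |zs y ((st U ∅ W).map s)| =
          (B.card.choose i : ℝ) * Z := by
      intro U hU
      rw [Finset.sum_comm]
      have h7 : ∀ W ∈ B.powersetCard i, ∑ s : Sl k ↪ V, |zs y ((st U ∅ W).map s)| = Z := by
        intro W hW
        rw [hZ]
        apply sum_card_eq (zs y)
        rw [div_card, div_card, (Finset.mem_powersetCard.1 hU).2, (Finset.mem_powersetCard.1 hW).2,
          Finset.card_univ, Fintype.card_fin, Finset.card_empty]
        omega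
      rw [Finset.sum_congr rfl h7, Finset.sum_const, Finset.card_powersetCard, nsmul_eq_mul]
    rw [Finset.sum_congr rfl h6, Finset.sum_const, Finset.card_powersetCard, nsmul_eq_mul,
      Finset.card_univ, Fintype.card_fin, Nat.choose_symm (by omega)]
    have h8 : (B.card.choose i : ℝ) ≠ 0 := by
      have := Nat.choose_pos hi'
      positivity
    field_simp
  rw [hcast, Finset.mul_sum]
  refine (Finset.sum_le_sum fun s _ => h1 s).trans ?_
  rw [Finset.sum_comm, Finset.sum_congr rfl h5, ← Finset.sum_mul]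
  refine mul_le_mul_of_nonneg_right ?_ hZ0
  have h9 : ∑ i ∈ range (B.card + 1), (k + 1).choose i ≤ 2 ^ (k + 1) := by
    rw [← Nat.sum_range_choose (k + 1)]
    apply Finset.sum_le_sum_of_subset
    apply Finset.range_mono
    omega
  exact_mod_cast h9

end Pool.Agent.FD39
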