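import Pool.Agent.FD39.Defs

/-! # FD39/Fiber (MP_82a190_co, helper39): from injective slot maps to sets

`V` finite, `n = |V| ≥ |Sl k| = 3k+2` (so that there are embeddings). For `I : Finset (Sl k)` with `m` elements the number
`c_R` of embeddings `s` with `I.map s = R` is the same for all `R` with `|R| = m` (a permutation of `V` moving `R` to `R'`
acts on the embeddings by composition), and it is `0` for the other `R`. Hence for `g : Finset V → ℝ`
`∑ s g (I.map s) = c_m ∑_{|R| = m} g R`, and `g = 1` gives `|Sl k ↪ V| = c_m C(n,m)`. So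
`C(n,m) * ∑ s g (I.map s) = E * ∑_{R ∈ powersetCard m univ} g R`, `E = Fintype.card (Sl k ↪ V)`, and `E > 0` if
`3k+2 ≤ n`.
-/

namespace Pool.Agent.FD39

open Finset

variable {V : Type*} [Fintype V] [DecidableEq V] {k : ℕ}

/-- a permutation moving one finite set to another of the same size -/
theorem exists_perm_map (R R' : Finset V) (h : R.card = R'.card) :
    ∃ σ : Equiv.Perm V, R.map σ.toEmbedding = R' := by
  classical
  have hc : Fintype.card {x // x ∈ R} = Fintype.card {x // x ∈ R'} := by
    simpa using h
  let e : {x // x ∈ R} ≃ {x // x ∈ R'} := Fintype.equivOfCardEq hc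
  refine ⟨e.extendSubtype, ?_⟩
  apply Finset.eq_of_subset_of_card_le
  · intro x hx
    rw [Finset.mem_map] at hx
    obtain ⟨a, ha, rfl⟩ := hx
    exact e.extendSubtype_mem a ha
  · rw [Finset.card_map, h]

/-- the number of embeddings over a set depends only on its size -/
theorem fiber_card (I : Finset (Sl k)) (R R' : Finset V) (h : R.card = R'.card) :
    (univ.filter (fun s : Sl k ↪ V => I.map s = R)).card =
      (univ.filter (fun s : Sl k ↪ V => I.map s = R')).card := by
  obtain ⟨σ, hσ⟩ := exists_perm_map R R' h
  refine Finset.card_bij' (fun s _ => s.trans σ.toEmbedding) (fun s _ => s.trans σ.symm.toEmbedding)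
    ?_ ?_ ?_ ?_
  · intro s hs
    rw [Finset.mem_filter] at hs ⊢
    refine ⟨Finset.mem_univ _, ?_⟩
    rw [← Finset.map_map, hs.2, hσ]
  · intro s hs
    rw [Finset.mem_filter] at hs ⊢
    refine ⟨Finset.mem_univ _, ?_⟩
    rw [← Finset.map_map, hs.2, ← hσ, Finset.map_map]
    ext x
    simp
  · intro s _
    ext x
    simp
  · intro s _
    ext x
    simp

theorem fiber (g : Finset V → ℝ) (I : Finset (Sl k)) :
    ((Fintype.card V).choose I.card : ℝ) * ∑ s : Sl k ↪ V, g (I.map s) =
      (Fintype.card (Sl k ↪ V) : ℝ) * ∑ R ∈ (univ : Finset V).powersetCard I.card, g R := by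
  have hmaps : ∀ s ∈ (univ : Finset (Sl k ↪ V)), I.map s ∈ (univ : Finset V).powersetCard I.card := by
    intro s _
    rw [Finset.mem_powersetCard]
    exact ⟨Finset.subset_univ _, Finset.card_map _⟩
  have h1 : ∑ s : Sl k ↪ V, g (I.map s) =
      ∑ R ∈ (univ : Finset V).powersetCard I.card,
        ((univ.filter (fun s : Sl k ↪ V => I.map s = R)).card : ℝ) * g R := by
    rw [← Finset.sum_fiberwise_of_maps_to hmaps]
    apply Finset.sum_congr rfl
    intro R _
    rw [← nsmul_eq_mul, ← Finset.sum_const]
    apply Finset.sum_congr rfl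
    intro s hs
    rw [(Finset.mem_filter.1 hs).2]
  have h2 : ∀ R ∈ (univ : Finset V).powersetCard I.card,
      ((Fintype.card V).choose I.card : ℝ) *
        ((univ.filter (fun s : Sl k ↪ V => I.map s = R)).card : ℝ) =
      (Fintype.card (Sl k ↪ V) : ℝ) := by
    intro R hR
    have h3 : (univ : Finset (Sl k ↪ V)).card =
        ∑ R' ∈ (univ : Finset V).powersetCard I.card,
          (univ.filter (fun s : Sl k ↪ V => I.map s = R')).card :=
      Finset.card_eq_sum_card_fiberwise hmaps
    have h4 : ∑ R' ∈ (univ : Finset V).powersetCard I.card,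
          (univ.filter (fun s : Sl k ↪ V => I.map s = R')).card =
        (Fintype.card V).choose I.card *
          (univ.filter (fun s : Sl k ↪ V => I.map s = R)).card := by
      rw [Finset.sum_congr rfl (fun R' hR' => fiber_card I R' R
        ((Finset.mem_powersetCard.1 hR').2.trans (Finset.mem_powersetCard.1 hR).2.symm)),
        Finset.sum_const, smul_eq_mul, Finset.card_powersetCard, Finset.card_univ]
    rw [h4, Finset.card_univ] at h3
    rw [h3]
    push_cast
    rfl
  rw [h1, Finset.mul_sum, Finset.mul_sum]
  apply Finset.sum_congr rfl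
  intro R hR
  rw [← mul_assoc, h2 R hR]

theorem emb_pos (h : 3 * k + 2 ≤ Fintype.card V) : 0 < Fintype.card (Sl k ↪ V) := by
  have hc : Fintype.card (Sl k) ≤ Fintype.card V := by
    have : Fintype.card (Sl k) = 3 * k + 2 := by
      simp only [Fintype.card_sum, Fintype.card_fin]
      ring
    omega
  have : Nonempty (Sl k ↪ V) := Function.Embedding.nonempty_of_card_le hc
  exact Fintype.card_pos

end Pool.Agent.FD39
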