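import Mathlib

/-! # FD39/Num (MP_82a190_co, helper39): the numerical inequality for k = 1000, d = 28 (Mathlib only)

`√C(1001,28) ≥ X` for an explicit natural number `X` with `X² ≤ C(1001,28)` (`Real.le_sqrt`), then
`8·1000·(2^28 + 2^1001·6^28/X) ≤ 2^1000` is an inequality between explicit numbers (true with a factor 17 to spare).
-/

namespace Pool.Agent.FD39

private theorem choose_val : (1000 + 1 : ℕ).choose 28 ≥ 1500000000000000000000000000 ^ 2 := by
  rw [Nat.choose_eq_descFactorial_div_factorial]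
  decide +kernel

theorem num1000 :
    8 * ((1000 : ℕ) : ℝ) * (2 ^ 28 + 2 ^ (1000 + 1) * 6 ^ 28 / Real.sqrt (((1000 + 1).choose 28 : ℕ) : ℝ)) ≤
      2 ^ 1000 := by
  have h1 : (1500000000000000000000000000 : ℝ) ≤ Real.sqrt (((1000 + 1).choose 28 : ℕ) : ℝ) := by
    apply Real.le_sqrt_of_sq_le
    exact_mod_cast choose_val
  have h2 : (2 : ℝ) ^ (1000 + 1) * 6 ^ 28 / Real.sqrt (((1000 + 1).choose 28 : ℕ) : ℝ) ≤
      2 ^ (1000 + 1) * 6 ^ 28 / 1500000000000000000000000000 := by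
    apply div_le_div_of_nonneg_left (by positivity) (by norm_num) h1
  have h3 : (8 : ℝ) * ((1000 : ℕ) : ℝ) * (2 ^ 28 + 2 ^ (1000 + 1) * 6 ^ 28 / 1500000000000000000000000000) ≤ 2 ^ 1000 := by
    have hP : (2 : ℝ) ^ 80 ≤ 2 ^ 1000 := pow_le_pow_right₀ (by norm_num) (by norm_num)
    rw [pow_succ (2 : ℝ) 1000]
    generalize (2 : ℝ) ^ 1000 = P at hP
    norm_num at hP ⊢
    linarith
  refine le_trans ?_ h3
  gcongr

end Pool.Agent.FD39
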