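import Pool.Agent.FD39.Frac
import Pool.Agent.FD39.Num

/-! # FD39/Final (MP_82a190_co, helper39): the fractional threshold of K_1001^1000 is at most 1 - 2/2^1000 -/

namespace Pool.Agent.FD39

open Finset

/-- general form: any `k` satisfying the numerical inequality -/
theorem frac_le (k d : ℕ) (hk : 2 ≤ k) (hd : d ≤ k)
    (hK : 8 * (k : ℝ) * (2 ^ d + 2 ^ (k + 1) * 6 ^ d / Real.sqrt ((k + 1).choose d)) ≤ 2 ^ k) :
    sInf {δ : ℝ | 0 ≤ δ ∧ δ ≤ 1 ∧ ∃ n₀ : ℕ, ∀ n : ℕ, n₀ ≤ n →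
      ∀ G : Finset (Finset (Fin n)),
        (∀ e ∈ G, e.card = k) →
        (∀ S : Finset (Fin n), S.card = k - 1 →
          δ * (n : ℝ) ≤ ((G.filter (fun e => S ⊆ e)).card : ℝ)) →
        ∃ w : Finset (Fin n) → ℝ,
          (∀ A, 0 ≤ w A) ∧
          (∀ A, w A ≠ 0 → A.card = k + 1 ∧ ∀ e : Finset (Fin n), e ⊆ A → e.card = k → e ∈ G) ∧
          ∀ e ∈ G, ∑ A ∈ (Finset.univ : Finset (Finset (Fin n))).filter (fun A => e ⊆ A), w A = 1} ≤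
      1 - 2 / 2 ^ k := by
  have h2 : (4 : ℝ) ≤ 2 ^ k := by
    calc (4 : ℝ) = 2 ^ 2 := by norm_num
      _ ≤ 2 ^ k := pow_le_pow_right₀ (by norm_num) hk
  refine csInf_le ⟨0, fun δ hδ => hδ.1⟩ ⟨?_, ?_, 3 * k + 2, ?_⟩
  · have : (2 : ℝ) / 2 ^ k ≤ 1 := by
      rw [div_le_one (by positivity)]
      linarith
    linarith
  · have : (0 : ℝ) ≤ 2 / 2 ^ k := by positivity
    linarith
  · intro n hn G hG hdeg
    exact frac_exists k d n hk hd hn hK G hG hdeg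

/-- the case `k = 1000` -/
theorem frac_1000 :
    sInf {δ : ℝ | 0 ≤ δ ∧ δ ≤ 1 ∧ ∃ n₀ : ℕ, ∀ n : ℕ, n₀ ≤ n →
      ∀ G : Finset (Finset (Fin n)),
        (∀ e ∈ G, e.card = 1000) →
        (∀ S : Finset (Fin n), S.card = 1000 - 1 →
          δ * (n : ℝ) ≤ ((G.filter (fun e => S ⊆ e)).card : ℝ)) →
        ∃ w : Finset (Fin n) → ℝ,
          (∀ A, 0 ≤ w A) ∧
          (∀ A, w A ≠ 0 → A.card = 1001 ∧ ∀ e : Finset (Fin n), e ⊆ A → e.card = 1000 → e ∈ G) ∧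
          ∀ e ∈ G, ∑ A ∈ (Finset.univ : Finset (Finset (Fin n))).filter (fun A => e ⊆ A), w A = 1} <
      1 - 1 / 2 ^ 1000 := by
  have h := frac_le 1000 28 (by norm_num) (by norm_num) num1000
  have h3 : (1 : ℝ) - 2 / 2 ^ 1000 < 1 - 1 / 2 ^ 1000 := by
    have : (1 : ℝ) / 2 ^ 1000 < 2 / 2 ^ 1000 := by
      apply div_lt_div_of_pos_right (by norm_num) (by positivity)
    linarith
  exact lt_of_le_of_lt h h3

end Pool.Agent.FD39
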