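import Mathlib

/-! # FD39/Num2 (MP_82a190_co, helper39): the numerical inequality for k = 2000, d = 53, μ = 4k/2^k (Mathlib only) -/

namespace Pool.Agent.FD39

private theorem ch2000 : (600000000000000000000000000000000000000000000000000 : ℕ) ^ 2 ≤ (2001).choose 53 := by
  have h := Nat.descFactorial_eq_factorial_mul_choose 2001 53
  have h2 : (600000000000000000000000000000000000000000000000000 : ℕ) ^ 2 * Nat.factorial 53 ≤
      Nat.descFactorial 2001 53 := by decide +kernel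
  rw [h, mul_comm] at h2
  exact Nat.le_of_mul_le_mul_left h2 (Nat.factorial_pos 53)

theorem num2000 :
    4 * ((2000 : ℕ) : ℝ) * (8000 / 2 ^ 2000) *
      (2 ^ 53 + 2 ^ (2000 + 1) * 6 ^ 53 / Real.sqrt (((2000 + 1).choose 53 : ℕ) : ℝ)) ≤ 1 := by
  have hS : (600000000000000000000000000000000000000000000000000 : ℝ) ≤
      Real.sqrt (((2000 + 1).choose 53 : ℕ) : ℝ) := by
    apply Real.le_sqrt_of_sq_le
    exact_mod_cast ch2000
  generalize Real.sqrt (((2000 + 1).choose 53 : ℕ) : ℝ) = S at hS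
  have hP : (2 : ℝ) ^ 80 ≤ 2 ^ 2000 := pow_le_pow_right₀ (by norm_num) (by norm_num)
  rw [pow_succ (2 : ℝ) 2000]
  generalize (2 : ℝ) ^ 2000 = P at hP
  have hS0 : 0 < S := lt_of_lt_of_le (by norm_num) hS
  have hP0 : 0 < P := lt_of_lt_of_le (by norm_num) hP
  have e : 4 * ((2000 : ℕ) : ℝ) * (8000 / P) * (2 ^ 53 + P * 2 * 6 ^ 53 / S) =
      64000000 * 2 ^ 53 / P + 128000000 * 6 ^ 53 / S := by
    push_cast
    field_simp
    ring
  rw [e]
  have h1 : 64000000 * 2 ^ 53 / P ≤ 1 / 2 := by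
    rw [div_le_iff₀ hP0]
    norm_num at hP ⊢
    linarith
  have h2 : 128000000 * 6 ^ 53 / S ≤ 1 / 2 := by
    rw [div_le_iff₀ hS0]
    norm_num at hS ⊢
    linarith
  linarith

end Pool.Agent.FD39
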