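import Pool.Agent.FD39.Frac2
import Pool.Agent.FD39.Num2

/-! # FD39/Final2 (MP_82a190_co, helper39): the fractional threshold of K_2001^2000 is at most 1 - 8000/2^2000 -/

namespace Pool.Agent.FD39

open Finset

/-- general form: any loss `μ ∈ [0,1]` satisfying the numerical inequality -/
theorem frac_le_mu (k d : ℕ) (μ : ℝ) (hμ0 : 0 ≤ μ) (hμ1 : μ ≤ 1) (hk : 2 ≤ k) (hd : d ≤ k)
    (hK : 4 * (k : ℝ) * μ * (2 ^ d + 2 ^ (k + 1) * 6 ^ d / Real.sqrt ((k + 1).choose d)) ≤ 1) :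
    sInf {δ : ℝ | 0 ≤ δ ∧ δ ≤ 1 ∧ ∃ n₀ : ℕ, ∀ n : ℕ, n₀ ≤ n →
      ∀ G : Finset (Finset (Fin n)),
        (∀ e ∈ G, e.card = k) →
        (∀ S : Finset (Fin n), S.card = k - 1 →
          δ * (n : ℝ) ≤ ((G.filter (fun e => S ⊆ e)).card : ℝ)) →
        ∃ w : Finset (Fin n) → ℝ,
          (∀ A, 0 ≤ w A) ∧
          (∀ A, w A ≠ 0 → A.card = k + 1 ∧ ∀ e : Finset (Fin n), e ⊆ A → e.card = k → e ∈ G) ∧
          ∀ e ∈ G, ∑ A ∈ (Finset.univ : Finset (Finset (Fin n))).filter (fun A => e ⊆ A), w A = 1} ≤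
      1 - μ := by
  refine csInf_le ⟨0, fun δ hδ => hδ.1⟩ ⟨by linarith, by linarith, 3 * k + 2, ?_⟩
  intro n hn G hG hdeg
  exact frac_exists_mu k d n μ hμ0 hk hd hn hK G hG hdeg

/-- the case `k = 2000`: loss `4k/2^k` -/
theorem frac_2000 :
    sInf {δ : ℝ | 0 ≤ δ ∧ δ ≤ 1 ∧ ∃ n₀ : ℕ, ∀ n : ℕ, n₀ ≤ n →
      ∀ G : Finset (Finset (Fin n)),
        (∀ e ∈ G, e.card = 2000) →
        (∀ S : Finset (Fin n), S.card = 2000 - 1 →
          δ * (n : ℝ) ≤ ((G.filter (fun e => S ⊆ e)).card : ℝ)) →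
        ∃ w : Finset (Fin n) → ℝ,
          (∀ A, 0 ≤ w A) ∧
          (∀ A, w A ≠ 0 → A.card = 2001 ∧ ∀ e : Finset (Fin n), e ⊆ A → e.card = 2000 → e ∈ G) ∧
          ∀ e ∈ G, ∑ A ∈ (Finset.univ : Finset (Finset (Fin n))).filter (fun A => e ⊆ A), w A = 1} ≤
      1 - 8000 / 2 ^ 2000 := by
  refine frac_le_mu 2000 53 (8000 / 2 ^ 2000) (by positivity) ?_ (by norm_num) (by norm_num) num2000
  rw [div_le_one (by positivity)]
  calc (8000 : ℝ) ≤ 2 ^ 13 := by norm_num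
    _ ≤ 2 ^ 2000 := pow_le_pow_right₀ (by norm_num) (by norm_num)

end Pool.Agent.FD39
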