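import Pool.Agent.FD39.MI
import Pool.Agent.KF74.Farkas

/-! # FD39/Frac (MP_82a190_co, helper39): fractional decompositions

`K = 2^d + 2^(k+1) 6^d / √C(k+1,d)`, `8 k K ≤ 2^k`, codegrees at least `(1 - 2/2^k) n`, `n ≥ 3k+2`, `k ≥ 2`.
Apply `KF74.farkas` with `r = k+1`, `C = 2/(n-k)`. Given `y`, let `ỹ R = if R ∈ G then y R else 0`, `μ = 2/2^k`.
(1) For `|A| = k+1`: `zs ỹ A = ∑_{e ∈ G, e ⊆ A} y e` (the `k`-subsets of `A` are the `A.erase a`; all `e ∈ G` have `k`
    elements).
(2) `∑_{|A|=k+1} zs ỹ A = (n-k) ∑_{|R|=k} ỹ R = (n-k) ∑_{e ∈ G} y e` (double counting, pairs `R ⊆ A = insert x R`).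
(3) For `S` with `k-1` elements the number of `x ∉ S` with `insert x S ∉ G` is at most `μ n`: the map `x ↦ insert x S` is a
    bijection of the `x ∉ S` with `insert x S ∈ G` onto `G.filter (S ⊆ ·)`, which has at least `(1-μ) n` elements.
(4) For `R ∈ G` the number of `x ∉ R` with `insert x R` not a clique is at most `k μ n`: some facet `insert x (R.erase a)`,
    `a ∈ R`, is not in `G`.
(5) `∑_{|A|=k+1, not a clique} max 0 (-zs ỹ A) ≤ ∑_{|R|=k} |ỹ R| * #{x ∉ R : insert x R not a clique} ≤ k μ n ∑ |ỹ R|`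
    (`max 0 (-∑) ≤ ∑ |·|`; `ỹ R = 0` if `R ∉ G`).
(6) `|z| = z + 2 max 0 (-z)`, so `main_ineq` for `ỹ` gives
    `(n-k) ∑|ỹ| ≤ K ((n-k) ∑_G y + 2 ∑_{cliques} max 0 (-z) + 2 k μ n ∑|ỹ|)`. As `2 K k μ n = 4 k K n / 2^k ≤ n/2 ≤ n-k`,
    `0 ≤ (n-k) ∑_G y + 2 ∑_{cliques} max 0 (-z)`; divide by `n-k > 0`.
`KF74.cls`/`KF74.IsCl` are the cliques (`KF74.mem_cls`).
-/

namespace Pool.Agent.FD39

open Finset

private theorem sum_erase {V : Type*} [DecidableEq V] {k : ℕ} (f : Finset V → ℝ) {A : Finset V}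
    (hA : A.card = k + 1) : ∑ a ∈ A, f (A.erase a) = ∑ e ∈ A.powersetCard k, f e := by
  refine Finset.sum_bij (fun a _ => A.erase a) ?_ ?_ ?_ ?_
  · intro a ha
    rw [Finset.mem_powersetCard]
    exact ⟨Finset.erase_subset _ _, by rw [Finset.card_erase_of_mem ha, hA]; rfl⟩
  · intro a ha b hb hab
    by_contra hne
    have h1 : b ∈ A.erase a := Finset.mem_erase.2 ⟨fun h => hne h.symm, hb⟩
    rw [hab] at h1
    exact Finset.notMem_erase b A h1
  · intro e he
    rw [Finset.mem_powersetCard] at he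
    have h1 : (A \ e).card = 1 := by
      rw [Finset.card_sdiff_of_subset he.1, hA, he.2]
      omega
    obtain ⟨a, ha⟩ := Finset.card_eq_one.1 h1
    have ha2 : a ∈ A \ e := by rw [ha]; exact Finset.mem_singleton_self a
    rw [Finset.mem_sdiff] at ha2
    refine ⟨a, ha2.1, ?_⟩
    symm
    refine Finset.eq_of_subset_of_card_le ?_ ?_
    · intro x hx
      exact Finset.mem_erase.2 ⟨fun h => ha2.2 (h ▸ hx), he.1 hx⟩
    · rw [Finset.card_erase_of_mem ha2.1, hA, he.2]
      omega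
  · intro a _
    rfl

private theorem dcount {n k : ℕ} (F : Finset (Fin n) → Fin n → ℝ) :
    ∑ A ∈ (univ : Finset (Fin n)).powersetCard (k + 1), ∑ a ∈ A, F (A.erase a) a =
      ∑ R ∈ (univ : Finset (Fin n)).powersetCard k, ∑ x ∈ Rᶜ, F R x := by
  rw [Finset.sum_sigma', Finset.sum_sigma']
  refine Finset.sum_bij' (fun p _ => ⟨p.1.erase p.2, p.2⟩) (fun p _ => ⟨insert p.2 p.1, p.2⟩)
    ?_ ?_ ?_ ?_ ?_
  · rintro ⟨A, a⟩ h
    rw [Finset.mem_sigma, Finset.mem_powersetCard] at h
    rw [Finset.mem_sigma, Finset.mem_powersetCard]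
    refine ⟨⟨Finset.subset_univ _, ?_⟩, ?_⟩
    · show (A.erase a).card = k
      rw [Finset.card_erase_of_mem h.2, h.1.2]
      rfl
    · rw [Finset.mem_compl]
      exact Finset.notMem_erase a A
  · rintro ⟨R, x⟩ h
    rw [Finset.mem_sigma, Finset.mem_powersetCard, Finset.mem_compl] at h
    rw [Finset.mem_sigma, Finset.mem_powersetCard]
    refine ⟨⟨Finset.subset_univ _, ?_⟩, Finset.mem_insert_self _ _⟩
    show (insert x R).card = k + 1
    rw [Finset.card_insert_of_notMem h.2, h.1.2]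
  · rintro ⟨A, a⟩ h
    rw [Finset.mem_sigma] at h
    have h1 : insert a (A.erase a) = A := Finset.insert_erase h.2
    simp only [h1]
  · rintro ⟨R, x⟩ h
    rw [Finset.mem_sigma, Finset.mem_compl] at h
    have h1 : (insert x R).erase x = R := Finset.erase_insert h.2
    simp only [h1]
  · rintro ⟨A, a⟩ _
    rfl

/-- the bad extensions of `S` -/
private noncomputable def Qs {n : ℕ} (G : Finset (Finset (Fin n))) (S : Finset (Fin n)) :
    Finset (Fin n) := univ.filter fun x => x ∉ S ∧ insert x S ∉ G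

private theorem Qs_card {n k : ℕ} {μ : ℝ} (hk : 2 ≤ k) (G : Finset (Finset (Fin n)))
    (hG : ∀ e ∈ G, e.card = k) {S : Finset (Fin n)} (hS : S.card = k - 1)
    (hdeg : (1 - μ) * (n : ℝ) ≤ ((G.filter (fun e => S ⊆ e)).card : ℝ)) :
    ((Qs G S).card : ℝ) ≤ μ * n := by
  set P : Finset (Fin n) := univ.filter fun x => x ∉ S ∧ insert x S ∈ G with hP
  have h1 : G.filter (fun e => S ⊆ e) ⊆ P.image (fun x => insert x S) := by
    intro e he
    rw [Finset.mem_filter] at he
    have h2 : (e \ S).card = 1 := by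
      rw [Finset.card_sdiff_of_subset he.2, hG e he.1, hS]
      omega
    obtain ⟨x, hx⟩ := Finset.card_eq_one.1 h2
    have hx2 : x ∈ e \ S := by rw [hx]; exact Finset.mem_singleton_self x
    rw [Finset.mem_sdiff] at hx2
    have h3 : insert x S = e := by
      refine Finset.eq_of_subset_of_card_le ?_ ?_
      · intro z hz
        rcases Finset.mem_insert.1 hz with rfl | hz
        · exact hx2.1
        · exact he.2 hz
      · rw [Finset.card_insert_of_notMem hx2.2, hS, hG e he.1]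
        omega
    rw [Finset.mem_image]
    refine ⟨x, ?_, h3⟩
    rw [hP, Finset.mem_filter]
    exact ⟨Finset.mem_univ _, hx2.2, by rw [h3]; exact he.1⟩
  have h2 : (G.filter (fun e => S ⊆ e)).card ≤ P.card :=
    (Finset.card_le_card h1).trans Finset.card_image_le
  have h3 : P.card + (Qs G S).card ≤ n := by
    rw [← Finset.card_union_of_disjoint]
    · refine (Finset.card_le_univ _).trans ?_
      rw [Fintype.card_fin]
    · rw [Finset.disjoint_left]
      intro x hx hx2
      rw [hP, Finset.mem_filter] at hx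
      rw [Qs, Finset.mem_filter] at hx2
      exact hx2.2.2 hx.2.2
  have h4 : ((G.filter (fun e => S ⊆ e)).card : ℝ) + ((Qs G S).card : ℝ) ≤ n := by
    exact_mod_cast (Nat.add_le_add_right h2 _).trans h3
  linarith

open Classical in
private theorem bad_card {n k : ℕ} {μ : ℝ} (hk : 2 ≤ k) (G : Finset (Finset (Fin n)))
    (hG : ∀ e ∈ G, e.card = k)
    (hdeg : ∀ S : Finset (Fin n), S.card = k - 1 →
      (1 - μ) * (n : ℝ) ≤ ((G.filter (fun e => S ⊆ e)).card : ℝ))
    {R : Finset (Fin n)} (hR : R ∈ G) :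
    ((Rᶜ.filter fun x => ¬ KF74.IsCl (k + 1) k G (insert x R)).card : ℝ) ≤ k * (μ * n) := by
  have hRk := hG R hR
  have h1 : (Rᶜ.filter fun x => ¬ KF74.IsCl (k + 1) k G (insert x R)) ⊆
      R.biUnion fun a => Qs G (R.erase a) := by
    intro x hx
    rw [Finset.mem_filter, Finset.mem_compl] at hx
    obtain ⟨hxR, hx2⟩ := hx
    have h2 : (insert x R).card = k + 1 := by rw [Finset.card_insert_of_notMem hxR, hRk]
    have h3 : ∃ e : Finset (Fin n), e ⊆ insert x R ∧ e.card = k ∧ e ∉ G := by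
      by_contra hcon
      push Not at hcon
      exact hx2 ⟨h2, fun e he hek => hcon e he hek⟩
    obtain ⟨e, he, hek, heG⟩ := h3
    have hxe : x ∈ e := by
      by_contra hxe
      apply heG
      have h4 : e ⊆ R := by
        intro z hz
        rcases Finset.mem_insert.1 (he hz) with rfl | hz2
        · exact absurd hz hxe
        · exact hz2
      rw [Finset.eq_of_subset_of_card_le h4 (by rw [hek, hRk])]
      exact hR
    have h5 : e.erase x ⊆ R := by
      intro z hz
      rw [Finset.mem_erase] at hz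
      rcases Finset.mem_insert.1 (he hz.2) with h | h
      · exact absurd h hz.1
      · exact h
    have h6 : (R \ e.erase x).card = 1 := by
      rw [Finset.card_sdiff_of_subset h5, Finset.card_erase_of_mem hxe, hek, hRk]
      omega
    obtain ⟨a, ha⟩ := Finset.card_eq_one.1 h6
    have ha2 : a ∈ R \ e.erase x := by rw [ha]; exact Finset.mem_singleton_self a
    rw [Finset.mem_sdiff] at ha2
    have h7 : e.erase x = R.erase a := by
      refine Finset.eq_of_subset_of_card_le ?_ ?_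
      · intro z hz
        exact Finset.mem_erase.2 ⟨fun h => ha2.2 (h ▸ hz), h5 hz⟩
      · rw [Finset.card_erase_of_mem ha2.1, Finset.card_erase_of_mem hxe, hek, hRk]
    rw [Finset.mem_biUnion]
    refine ⟨a, ha2.1, ?_⟩
    rw [Qs, Finset.mem_filter, ← h7, Finset.insert_erase hxe]
    exact ⟨Finset.mem_univ _, Finset.notMem_erase x e, heG⟩
  have h2 : ((Rᶜ.filter fun x => ¬ KF74.IsCl (k + 1) k G (insert x R)).card : ℝ) ≤
      ∑ a ∈ R, ((Qs G (R.erase a)).card : ℝ) := by
    exact_mod_cast (Finset.card_le_card h1).trans Finset.card_biUnion_le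
  refine h2.trans ?_
  have h3 : ∀ a ∈ R, ((Qs G (R.erase a)).card : ℝ) ≤ μ * n := by
    intro a ha
    have h4 : (R.erase a).card = k - 1 := by rw [Finset.card_erase_of_mem ha, hRk]
    exact Qs_card hk G hG h4 (hdeg _ h4)
  refine (Finset.sum_le_sum h3).trans ?_
  rw [Finset.sum_const, hRk, nsmul_eq_mul]

theorem frac_exists (k d n : ℕ) (hk : 2 ≤ k) (hd : d ≤ k) (hn : 3 * k + 2 ≤ n)
    (hK : 8 * (k : ℝ) * (2 ^ d + 2 ^ (k + 1) * 6 ^ d / Real.sqrt ((k + 1).choose d)) ≤ 2 ^ k)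
    (G : Finset (Finset (Fin n))) (hG : ∀ e ∈ G, e.card = k)
    (hdeg : ∀ S : Finset (Fin n), S.card = k - 1 →
      (1 - 2 / 2 ^ k) * (n : ℝ) ≤ ((G.filter (fun e => S ⊆ e)).card : ℝ)) :
    ∃ w : Finset (Fin n) → ℝ,
      (∀ A, 0 ≤ w A) ∧
      (∀ A, w A ≠ 0 → A.card = k + 1 ∧ ∀ e : Finset (Fin n), e ⊆ A → e.card = k → e ∈ G) ∧
      ∀ e ∈ G, ∑ A ∈ (Finset.univ : Finset (Finset (Fin n))).filter (fun A => e ⊆ A), w A = 1 := by
  classical
  have hn' : (3 * k + 2 : ℝ) ≤ n := by exact_mod_cast hn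
  have hk' : (2 : ℝ) ≤ k := by exact_mod_cast hk
  set K : ℝ := 2 ^ d + 2 ^ (k + 1) * 6 ^ d / Real.sqrt ((k + 1).choose d) with hKdef
  have hKpos : 0 < K := by positivity
  set μ : ℝ := 2 / 2 ^ k with hμ
  have hnk : (0 : ℝ) < n - k := by linarith
  refine KF74.farkas G (2 / (n - k)) fun y => ?_
  set y' : Finset (Fin n) → ℝ := fun R => if R ∈ G then y R else 0 with hy'
  -- (1)
  have s1 : ∀ A ∈ (univ : Finset (Fin n)).powersetCard (k + 1),
      zs y' A = ∑ e ∈ G.filter (fun e => e ⊆ A), y e := by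
    intro A hA
    rw [Finset.mem_powersetCard] at hA
    rw [zs, sum_erase y' hA.2, hy', ← Finset.sum_filter]
    refine Finset.sum_congr ?_ fun _ _ => rfl
    ext e
    rw [Finset.mem_filter, Finset.mem_filter, Finset.mem_powersetCard]
    constructor
    · rintro ⟨⟨h1, _⟩, h2⟩
      exact ⟨h2, h1⟩
    · rintro ⟨h1, h2⟩
      exact ⟨⟨h2, hG e h1⟩, h1⟩
  -- (2)
  have s0 : ∀ f : Finset (Fin n) → ℝ, (∀ R, R ∉ G → f R = 0) →
      ∑ R ∈ (univ : Finset (Fin n)).powersetCard k, f R = ∑ e ∈ G, f e := by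
    intro f hf
    symm
    refine Finset.sum_subset ?_ fun R _ hR => hf R hR
    intro e he
    rw [Finset.mem_powersetCard]
    exact ⟨Finset.subset_univ _, hG e he⟩
  have s2 : ∑ A ∈ (univ : Finset (Fin n)).powersetCard (k + 1), zs y' A =
      (n - k) * ∑ e ∈ G, y e := by
    have h1 := dcount (k := k) (fun (R : Finset (Fin n)) (_ : Fin n) => y' R)
    have h2 : ∀ R ∈ (univ : Finset (Fin n)).powersetCard k,
        (∑ _x ∈ Rᶜ, y' R) = (n - k) * y' R := by
      intro R hR
      rw [Finset.mem_powersetCard] at hR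
      rw [Finset.sum_const, Finset.card_compl, Fintype.card_fin, hR.2, nsmul_eq_mul,
        Nat.cast_sub (by omega)]
    rw [Finset.sum_congr rfl h2, ← Finset.mul_sum] at h1
    rw [show (∑ e ∈ G, y e) = ∑ e ∈ G, y' e from Finset.sum_congr rfl fun e he => by
      simp only [hy', if_pos he]]
    rw [← s0 y' fun R hR => by simp only [hy', if_neg hR]]
    exact h1
  -- (5)
  have s5 : ∑ A ∈ ((univ : Finset (Fin n)).powersetCard (k + 1)).filter
        (fun A => ¬ KF74.IsCl (k + 1) k G A), max 0 (-(zs y' A)) ≤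
      k * (μ * n) * ∑ R ∈ (univ : Finset (Fin n)).powersetCard k, |y' R| := by
    obtain ⟨Fz, hFz⟩ : ∃ Fz : Finset (Fin n) → Fin n → ℝ, ∀ R x, Fz R x =
        if ¬ KF74.IsCl (k + 1) k G (insert x R) then |y' R| else 0 := ⟨_, fun _ _ => rfl⟩
    have hFz0 : ∀ R x, 0 ≤ Fz R x := by
      intro R x
      rw [hFz]
      split_ifs
      · exact le_rfl
      · exact abs_nonneg _
    have h1 : ∑ A ∈ ((univ : Finset (Fin n)).powersetCard (k + 1)).filter
        (fun A => ¬ KF74.IsCl (k + 1) k G A), max 0 (-(zs y' A)) ≤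
        ∑ A ∈ (univ : Finset (Fin n)).powersetCard (k + 1), ∑ a ∈ A, Fz (A.erase a) a := by
      rw [Finset.sum_filter]
      refine Finset.sum_le_sum fun A _ => ?_
      by_cases hA : KF74.IsCl (k + 1) k G A
      · rw [if_neg (not_not.2 hA)]
        exact Finset.sum_nonneg fun a _ => hFz0 _ _
      · rw [if_pos hA]
        refine max_le (Finset.sum_nonneg fun a _ => hFz0 _ _) ?_
        rw [zs, ← Finset.sum_neg_distrib]
        refine Finset.sum_le_sum fun a ha => ?_
        rw [hFz, Finset.insert_erase ha, if_pos hA]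
        exact neg_le_abs _
    refine h1.trans ?_
    rw [dcount Fz, Finset.mul_sum]
    refine Finset.sum_le_sum fun R _ => ?_
    rw [Finset.sum_congr rfl fun x _ => hFz R x]
    rw [← Finset.sum_filter, Finset.sum_const, nsmul_eq_mul]
    by_cases hR : R ∈ G
    · exact mul_le_mul_of_nonneg_right (bad_card hk G hG hdeg hR) (abs_nonneg _)
    · have h2 : y' R = 0 := by simp only [hy', if_neg hR]
      rw [h2, abs_zero, mul_zero, mul_zero]
  -- (6)
  have hmain := main_ineq (V := Fin n) k d hd (by rw [Fintype.card_fin]; exact hn) y'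
  rw [Fintype.card_fin] at hmain
  set Y := ∑ R ∈ (univ : Finset (Fin n)).powersetCard k, |y' R| with hY
  have hY0 : 0 ≤ Y := Finset.sum_nonneg fun R _ => abs_nonneg _
  have s6 : ∑ A ∈ (univ : Finset (Fin n)).powersetCard (k + 1), |zs y' A| =
      ∑ A ∈ (univ : Finset (Fin n)).powersetCard (k + 1), zs y' A +
      2 * ∑ A ∈ (univ : Finset (Fin n)).powersetCard (k + 1), max 0 (-(zs y' A)) := by
    rw [Finset.mul_sum, ← Finset.sum_add_distrib]
    refine Finset.sum_congr rfl fun A _ => ?_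
    rcases le_total 0 (zs y' A) with h | h
    · rw [abs_of_nonneg h, max_eq_left (by linarith)]; ring
    · rw [abs_of_nonpos h, max_eq_right (by linarith)]; ring
  have s7 : ∑ A ∈ (univ : Finset (Fin n)).powersetCard (k + 1), max 0 (-(zs y' A)) =
      ∑ A ∈ KF74.cls (k + 1) k G, max 0 (-(∑ e ∈ G.filter (fun e => e ⊆ A), y e)) +
      ∑ A ∈ ((univ : Finset (Fin n)).powersetCard (k + 1)).filter
        (fun A => ¬ KF74.IsCl (k + 1) k G A), max 0 (-(zs y' A)) := by
    rw [← Finset.sum_filter_add_sum_filter_not ((univ : Finset (Fin n)).powersetCard (k + 1))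
      (fun A => KF74.IsCl (k + 1) k G A)]
    congr 1
    have h1 : ((univ : Finset (Fin n)).powersetCard (k + 1)).filter
        (fun A => KF74.IsCl (k + 1) k G A) = KF74.cls (k + 1) k G := by
      ext A
      rw [Finset.mem_filter, KF74.mem_cls, Finset.mem_powersetCard]
      exact ⟨fun h => h.2, fun h => ⟨⟨Finset.subset_univ _, h.1⟩, h⟩⟩
    rw [h1]
    refine Finset.sum_congr rfl fun A hA => ?_
    rw [KF74.mem_cls] at hA
    rw [s1 A (Finset.mem_powersetCard.2 ⟨Finset.subset_univ _, hA.1⟩)]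
  rw [s6, s7, s2] at hmain
  set Sc := ∑ A ∈ KF74.cls (k + 1) k G, max 0 (-(∑ e ∈ G.filter (fun e => e ⊆ A), y e)) with hSc
  set Sn := ∑ A ∈ ((univ : Finset (Fin n)).powersetCard (k + 1)).filter
        (fun A => ¬ KF74.IsCl (k + 1) k G A), max 0 (-(zs y' A)) with hSn
  set Sy := ∑ e ∈ G, y e with hSy
  have h2k : (0 : ℝ) < 2 ^ k := by positivity
  have e1 : K * (2 * (k * (μ * n) * Y)) ≤ (n - k) * Y := by
    have e2 : K * (2 * (k * (μ * n) * Y)) = (8 * k * K) / 2 ^ k * (n / 2 * Y) := by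
      rw [hμ]
      field_simp
      ring
    rw [e2]
    have e3 : (8 * k * K) / 2 ^ k ≤ 1 := by
      rw [div_le_one h2k]
      exact hK
    have e4 : 0 ≤ (n : ℝ) / 2 * Y := by positivity
    calc (8 * k * K) / 2 ^ k * (n / 2 * Y) ≤ 1 * (n / 2 * Y) :=
          mul_le_mul_of_nonneg_right e3 e4
      _ = n / 2 * Y := one_mul _
      _ ≤ (n - k) * Y := mul_le_mul_of_nonneg_right (by linarith) hY0
  have e5 : K * (2 * Sn) ≤ K * (2 * (k * (μ * n) * Y)) :=
    mul_le_mul_of_nonneg_left (by linarith) hKpos.le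
  have e6 : 0 ≤ K * ((n - k) * Sy + 2 * Sc) := by
    have e7 : K * ((n - k) * Sy + 2 * (Sc + Sn)) = K * ((n - k) * Sy + 2 * Sc) + K * (2 * Sn) := by
      ring
    rw [e7] at hmain
    linarith
  have e8 : 0 ≤ (n - k) * Sy + 2 * Sc := nonneg_of_mul_nonneg_right e6 hKpos
  have e9 : Sy + 2 / (n - k) * Sc = ((n - k) * Sy + 2 * Sc) / (n - k) := by
    field_simp
  rw [e9]
  exact div_nonneg e8 hnk.le

end Pool.Agent.FD39
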