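import Pool.Agent.FD39.Div
import Pool.Agent.FD39.Cube
import Pool.Agent.FD39.Chain
import Pool.Agent.FD39.Fiber

/-! # FD39/MI (MP_82a190_co, helper39): the main inequality

`K = 2^d + 2^(k+1) * 6^d / √C(k+1,d)`. Fix `B : Finset (Fin k)` with `k - d` elements (`Finset.exists_subset_card_eq`),
`J0 ⊆ R0 = univ.erase (Fin.last k)` with `d` elements, `Z = ∑ s |zs y ((st univ ∅ ∅).map s)|`.

(1) For fixed `s` apply `cube_top` with `N = Fin (k+1)` and `h U η = y ((st U η B).map s)`. As `st U (U ∩ ε) B = st U ε B`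
    (both parts only see `U ∩ ε`) and `DJ y U ∅ B s = ∑_{η ⊆ U} (-1)^|η| h U η` (`U ∪ ∅ = U`):
    `2^(k+1) ∑_{|U| = d} |DJ y U ∅ B s| ≤ 6^d √C ∑_ε |∑_{|U| = d} y ((st U ε B).map s)|`.
(2) Sum over `s`. Left: by `sum_DJ_eq` every `∑ s |DJ y U ∅ B s|` equals `M = ∑ s |DJ y J0 (R0 \ J0) ∅ s|`
    (`0 + (k-d) = |R0 \ J0| + 0`), there are `C(k+1,d)` of them. Right: by `sum_swap_eq` every `ε` gives
    `∑ s |∑_U y ((st U ∅ B).map s)| ≤ 2^(k+1) Z / (k-d+1)` (`div_bound`), and there are `2^(k+1)` sets `ε`. So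
    `C(k+1,d) M ≤ 6^d √C(k+1,d) 2^(k+1) Z / (k-d+1)`, i.e. `(k-d+1) M ≤ 6^d 2^(k+1) / √C(k+1,d) * Z`.
(3) `chain`: `(k+1) ∑ s |y ((st R0 ∅ ∅).map s)| ≤ (2^d - 1) Z + (k+1-d) M ≤ K Z`.
(4) `fiber` for `|y|` (the slot set `st R0 ∅ ∅` has `k` elements) and for `|zs y|` (`st univ ∅ ∅` has `k+1`):
    `(k+1) * ∑_R |y R| / C(n,k) ≤ K ∑_A |zs y A| / C(n,k+1)`, and `C(n,k+1) (k+1) = C(n,k) (n-k)`.
-/

namespace Pool.Agent.FD39

open Finset

theorem st_inter {k : ℕ} (U ε : Finset (Fin (k + 1))) (B : Finset (Fin k)) : st U (U ∩ ε) B = st U ε B := by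
  have h1 : U \ (U ∩ ε) = U \ ε := by ext x; simp
  have h2 : U ∩ (U ∩ ε) = U ∩ ε := by ext x; simp
  simp only [st, h1, h2]

theorem st_empty_card {k : ℕ} (U : Finset (Fin (k + 1))) : (st U ∅ (∅ : Finset (Fin k))).card = U.card := by
  simp [st]

theorem mi_core {V : Type*} [Fintype V] [DecidableEq V] (k d : ℕ) (hd : d ≤ k) (y : Finset V → ℝ)
    (J0 : Finset (Fin (k + 1))) (hJ : J0 ⊆ univ.erase (Fin.last k)) (hJd : J0.card = d) :
    ((k : ℝ) + 1 - d) * ∑ s : Sl k ↪ V, |DJ y J0 (univ.erase (Fin.last k) \ J0) ∅ s| ≤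
      2 ^ (k + 1) * 6 ^ d / Real.sqrt ((k + 1).choose d) *
        ∑ s : Sl k ↪ V, |zs y ((st univ ∅ ∅ : Finset (Sl k)).map s)| := by
  classical
  obtain ⟨B, -, hB⟩ := Finset.exists_subset_card_eq (s := (univ : Finset (Fin k))) (n := k - d)
    (by simp)
  set M := ∑ s : Sl k ↪ V, |DJ y J0 (univ.erase (Fin.last k) \ J0) ∅ s| with hM
  set Z := ∑ s : Sl k ↪ V, |zs y ((st univ ∅ ∅ : Finset (Sl k)).map s)| with hZ
  set D := ∑ s : Sl k ↪ V, |∑ U ∈ (univ : Finset (Fin (k + 1))).powersetCard d, y ((st U ∅ B).map s)| with hD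
  have hC0 : 0 < (k + 1).choose d := Nat.choose_pos (by omega)
  have hR : (univ.erase (Fin.last k) \ J0).card = k - d := by
    rw [Finset.card_sdiff_of_subset hJ, Finset.card_erase_of_mem (mem_univ _), hJd]
    simp
  -- step 1
  have h1 : ∀ s : Sl k ↪ V, (2 : ℝ) ^ (k + 1) *
      ∑ U ∈ (univ : Finset (Fin (k + 1))).powersetCard d, |DJ y U ∅ B s| ≤
      6 ^ d * Real.sqrt ((k + 1).choose d) *
        ∑ ε : Finset (Fin (k + 1)),
          |∑ U ∈ (univ : Finset (Fin (k + 1))).powersetCard d, y ((st U ε B).map s)| := by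
    intro s
    have h := cube_top (N := Fin (k + 1)) d (fun U η => y ((st U η B).map s))
    simp only [Fintype.card_fin, st_inter] at h
    have e : ∀ U : Finset (Fin (k + 1)), DJ y U ∅ B s =
        ∑ η ∈ U.powerset, (-1 : ℝ) ^ η.card * y ((st U η B).map s) := by
      intro U
      simp only [DJ, union_empty]
    simp only [e]
    exact h
  -- step 2
  have h2 : (2 : ℝ) ^ (k + 1) * (((k + 1).choose d : ℝ) * M) ≤
      6 ^ d * Real.sqrt ((k + 1).choose d) * (2 ^ (k + 1) * D) := by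
    have h := Finset.sum_le_sum (fun s (_ : s ∈ (univ : Finset (Sl k ↪ V))) => h1 s)
    rw [← Finset.mul_sum, ← Finset.mul_sum, Finset.sum_comm, Finset.sum_comm (s := univ) (t := univ)] at h
    have hl : ∑ U ∈ (univ : Finset (Fin (k + 1))).powersetCard d, ∑ s : Sl k ↪ V, |DJ y U ∅ B s| =
        ((k + 1).choose d : ℝ) * M := by
      have : ∀ U ∈ (univ : Finset (Fin (k + 1))).powersetCard d, ∑ s : Sl k ↪ V, |DJ y U ∅ B s| = M := by
        intro U hU
        rw [Finset.mem_powersetCard] at hU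
        refine sum_DJ_eq y U ∅ J0 (univ.erase (Fin.last k) \ J0) B ∅ (disjoint_empty_right _)
          disjoint_sdiff (by rw [hU.2, hJd]) ?_
        rw [hR, hB]; simp
      rw [Finset.sum_congr rfl this, Finset.sum_const, Finset.card_powersetCard]
      simp
    have hr : ∑ ε : Finset (Fin (k + 1)), ∑ s : Sl k ↪ V,
          |∑ U ∈ (univ : Finset (Fin (k + 1))).powersetCard d, y ((st U ε B).map s)| =
        2 ^ (k + 1) * D := by
      have : ∀ ε ∈ (univ : Finset (Finset (Fin (k + 1)))), ∑ s : Sl k ↪ V,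
          |∑ U ∈ (univ : Finset (Fin (k + 1))).powersetCard d, y ((st U ε B).map s)| = D := by
        intro ε _
        exact sum_swap_eq y _ ε B
      rw [Finset.sum_congr rfl this, Finset.sum_const]
      simp
    rw [hl, hr] at h
    exact h
  have h3 : ((k + 1).choose d : ℝ) * M ≤ 6 ^ d * Real.sqrt ((k + 1).choose d) * D := by
    have h2p : (0 : ℝ) < 2 ^ (k + 1) := by positivity
    refine le_of_mul_le_mul_left ?_ h2p
    calc (2 : ℝ) ^ (k + 1) * (((k + 1).choose d : ℝ) * M) ≤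
        6 ^ d * Real.sqrt ((k + 1).choose d) * (2 ^ (k + 1) * D) := h2
      _ = 2 ^ (k + 1) * (6 ^ d * Real.sqrt ((k + 1).choose d) * D) := by ring
  have h4 := div_bound (V := V) d hd y B hB
  rw [← hD, ← hZ] at h4
  have hkd : (((k - d : ℕ) : ℝ) + 1) = (k : ℝ) + 1 - d := by
    rw [Nat.cast_sub hd]; ring
  rw [hkd] at h4
  have hsq : Real.sqrt ((k + 1).choose d) * Real.sqrt ((k + 1).choose d) = ((k + 1).choose d : ℝ) :=
    Real.mul_self_sqrt (Nat.cast_nonneg _)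
  have hs0 : 0 < Real.sqrt ((k + 1).choose d) := Real.sqrt_pos.2 (by exact_mod_cast hC0)
  have hpos : (0 : ℝ) ≤ (k : ℝ) + 1 - d := by
    have : (d : ℝ) ≤ k := by exact_mod_cast hd
    linarith
  -- sqrt C * M ≤ 6^d * D
  have h5 : Real.sqrt ((k + 1).choose d) * M ≤ 6 ^ d * D := by
    refine le_of_mul_le_mul_left ?_ hs0
    calc Real.sqrt ((k + 1).choose d) * (Real.sqrt ((k + 1).choose d) * M)
        = ((k + 1).choose d : ℝ) * M := by rw [← mul_assoc, hsq]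
      _ ≤ 6 ^ d * Real.sqrt ((k + 1).choose d) * D := h3
      _ = Real.sqrt ((k + 1).choose d) * (6 ^ d * D) := by ring
  have h6 : Real.sqrt ((k + 1).choose d) * (((k : ℝ) + 1 - d) * M) ≤ 2 ^ (k + 1) * 6 ^ d * Z := by
    calc Real.sqrt ((k + 1).choose d) * (((k : ℝ) + 1 - d) * M)
        = ((k : ℝ) + 1 - d) * (Real.sqrt ((k + 1).choose d) * M) := by ring
      _ ≤ ((k : ℝ) + 1 - d) * (6 ^ d * D) := mul_le_mul_of_nonneg_left h5 hpos
      _ = 6 ^ d * (((k : ℝ) + 1 - d) * D) := by ring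
      _ ≤ 6 ^ d * (2 ^ (k + 1) * Z) := mul_le_mul_of_nonneg_left h4 (by positivity)
      _ = 2 ^ (k + 1) * 6 ^ d * Z := by ring
  have h7 : ((k : ℝ) + 1 - d) * M * Real.sqrt ((k + 1).choose d) ≤ 2 ^ (k + 1) * 6 ^ d * Z := by
    linarith [h6, mul_comm (((k : ℝ) + 1 - d) * M) (Real.sqrt ((k + 1).choose d))]
  rw [div_mul_eq_mul_div, le_div_iff₀ hs0]
  exact h7

theorem main_ineq {V : Type*} [Fintype V] [DecidableEq V] (k d : ℕ) (hd : d ≤ k)
    (hn : 3 * k + 2 ≤ Fintype.card V) (y : Finset V → ℝ) :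
    ((Fintype.card V : ℝ) - k) * ∑ R ∈ (univ : Finset V).powersetCard k, |y R| ≤
      (2 ^ d + 2 ^ (k + 1) * 6 ^ d / Real.sqrt ((k + 1).choose d)) *
        ∑ A ∈ (univ : Finset V).powersetCard (k + 1), |zs y A| := by
  classical
  obtain ⟨J0, hJ, hJd⟩ := Finset.exists_subset_card_eq (s := univ.erase (Fin.last k)) (n := d)
    (by rw [Finset.card_erase_of_mem (mem_univ _)]; simpa using hd)
  have hcore := mi_core (V := V) k d hd y J0 hJ hJd
  have hch := chain (V := V) y d hd J0 hJ hJd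
  set Z := ∑ s : Sl k ↪ V, |zs y ((st univ ∅ ∅ : Finset (Sl k)).map s)| with hZ
  set Y := ∑ s : Sl k ↪ V, |y ((st (univ.erase (Fin.last k)) ∅ ∅ : Finset (Sl k)).map s)| with hY
  set K : ℝ := 2 ^ d + 2 ^ (k + 1) * 6 ^ d / Real.sqrt ((k + 1).choose d) with hK
  have hZ0 : 0 ≤ Z := Finset.sum_nonneg fun _ _ => abs_nonneg _
  have h1 : ((k : ℝ) + 1) * Y ≤ K * Z := by
    calc ((k : ℝ) + 1) * Y ≤ (2 ^ d - 1) * Z + 2 ^ (k + 1) * 6 ^ d / Real.sqrt ((k + 1).choose d) * Z := by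
          linarith
      _ ≤ K * Z := by rw [hK]; nlinarith
  have hf1 := fiber (V := V) (k := k) (fun R => |y R|) (st (univ.erase (Fin.last k)) ∅ ∅)
  have hf2 := fiber (V := V) (k := k) (fun R => |zs y R|) (st univ ∅ ∅)
  have hc1 : (st (univ.erase (Fin.last k)) ∅ (∅ : Finset (Fin k))).card = k := by
    rw [st_empty_card, Finset.card_erase_of_mem (mem_univ _)]; simp
  have hc2 : (st univ ∅ (∅ : Finset (Fin k))).card = k + 1 := by
    rw [st_empty_card]; simp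
  rw [hc1] at hf1
  rw [hc2] at hf2
  rw [← hY] at hf1
  rw [← hZ] at hf2
  set E : ℝ := (Fintype.card (Sl k ↪ V) : ℝ) with hE
  have hE0 : 0 < E := by
    rw [hE]; exact_mod_cast emb_pos (V := V) (k := k) hn
  set n := Fintype.card V with hn'
  have hck : (0 : ℝ) < (n.choose k : ℝ) := by exact_mod_cast Nat.choose_pos (by omega)
  have hck1 : (0 : ℝ) < (n.choose (k + 1) : ℝ) := by exact_mod_cast Nat.choose_pos (by omega)
  have hcc : (n.choose (k + 1) : ℝ) * ((k : ℝ) + 1) = (n.choose k : ℝ) * ((n : ℝ) - k) := by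
    have h := Nat.choose_succ_right_eq n k
    have h' : ((n.choose (k + 1) * (k + 1) : ℕ) : ℝ) = ((n.choose k * (n - k) : ℕ) : ℝ) := by rw [h]
    rw [Nat.cast_mul, Nat.cast_mul, Nat.cast_sub (by omega), Nat.cast_add, Nat.cast_one] at h'
    exact h'
  set SY := ∑ R ∈ (univ : Finset V).powersetCard k, |y R| with hSY
  set SZ := ∑ A ∈ (univ : Finset V).powersetCard (k + 1), |zs y A| with hSZ
  have hpos : (0 : ℝ) < (n.choose k : ℝ) * E := mul_pos hck hE0
  refine le_of_mul_le_mul_left ?_ hpos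
  calc (n.choose k : ℝ) * E * (((n : ℝ) - k) * SY)
      = ((n.choose k : ℝ) * ((n : ℝ) - k)) * (E * SY) := by ring
    _ = ((n.choose (k + 1) : ℝ) * ((k : ℝ) + 1)) * ((n.choose k : ℝ) * Y) := by rw [hcc, hf1]
    _ = ((n.choose (k + 1) : ℝ) * (n.choose k : ℝ)) * (((k : ℝ) + 1) * Y) := by ring
    _ ≤ ((n.choose (k + 1) : ℝ) * (n.choose k : ℝ)) * (K * Z) :=
        mul_le_mul_of_nonneg_left h1 (mul_pos hck1 hck).le
    _ = (n.choose k : ℝ) * K * ((n.choose (k + 1) : ℝ) * Z) := by ring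
    _ = (n.choose k : ℝ) * K * (E * SZ) := by rw [hf2]
    _ = (n.choose k : ℝ) * E * (K * SZ) := by ring

end Pool.Agent.FD39
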