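import Mathlib

/-! # FD39/NumAll (MP_82a190_co, helper39): the numerical inequality for all k ≥ 2000, d = 53, μ = 4k/2^k (Mathlib only) -/

namespace Pool.Agent.FD39

private theorem ch2000' : (600000000000000000000000000000000000000000000000000 : ℕ) ^ 2 ≤ (2001).choose 53 := by
  have h := Nat.descFactorial_eq_factorial_mul_choose 2001 53
  have h2 : (600000000000000000000000000000000000000000000000000 : ℕ) ^ 2 * Nat.factorial 53 ≤
      Nat.descFactorial 2001 53 := by decide +kernel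
  rw [h, mul_comm] at h2
  exact Nat.le_of_mul_le_mul_left h2 (Nat.factorial_pos 53)

theorem chAll (k : ℕ) (hk : 2000 ≤ k) :
    (600000000000000000000000000000000000000000000000000 : ℕ) ^ 2 * k ^ 4 ≤
      (k + 1).choose 53 * 2000 ^ 4 := by
  induction k, hk using Nat.le_induction with
  | base => exact Nat.mul_le_mul_right _ ch2000'
  | succ k hk ih =>
    have h1 := Nat.choose_mul_succ_eq (k + 1) 53
    have e1 : k + 1 + 1 - 53 = k - 51 := by omega
    rw [e1] at h1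
    obtain ⟨j, rfl⟩ : ∃ j, k = j + 52 := ⟨k - 52, by omega⟩
    have e2 : j + 52 - 51 = j + 1 := by omega
    rw [e2] at h1
    generalize (600000000000000000000000000000000000000000000000000 : ℕ) ^ 2 = c at ih ⊢
    generalize (j + 52 + 1).choose 53 = x at ih h1
    generalize (j + 52 + 1 + 1).choose 53 = y at h1 ⊢
    have h2 : (j + 52 + 1) ^ 4 * (j + 1) ≤ (j + 52) ^ 4 * (j + 52 + 1 + 1) := by
      nlinarith [sq_nonneg (j : ℕ), Nat.zero_le j, Nat.zero_le (j ^ 2), Nat.zero_le (j ^ 3), Nat.zero_le (j ^ 4)]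
    refine Nat.le_of_mul_le_mul_right (c := j + 1) ?_ (by omega)
    calc c * (j + 52 + 1) ^ 4 * (j + 1) = c * ((j + 52 + 1) ^ 4 * (j + 1)) := by ring
      _ ≤ c * ((j + 52) ^ 4 * (j + 52 + 1 + 1)) := Nat.mul_le_mul_left _ h2
      _ = c * (j + 52) ^ 4 * (j + 52 + 1 + 1) := by ring
      _ ≤ x * 2000 ^ 4 * (j + 52 + 1 + 1) := Nat.mul_le_mul_right _ ih
      _ = x * (j + 52 + 1 + 1) * 2000 ^ 4 := by ring
      _ = y * 2000 ^ 4 * (j + 1) := by rw [h1]; ring

theorem powAll (k : ℕ) (hk : 2000 ≤ k) : 32 * 2 ^ 53 * k ^ 2 ≤ 2 ^ k := by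
  induction k, hk using Nat.le_induction with
  | base =>
    have h : (2 : ℕ) ^ 100 ≤ 2 ^ 2000 := Nat.pow_le_pow_right (by omega) (by omega)
    exact le_trans (by norm_num) h
  | succ k hk ih =>
    rw [pow_succ 2 k]
    have h : (k + 1) ^ 2 ≤ 2 * k ^ 2 := by nlinarith
    calc 32 * 2 ^ 53 * (k + 1) ^ 2 ≤ 32 * 2 ^ 53 * (2 * k ^ 2) := Nat.mul_le_mul_left _ h
      _ = 32 * 2 ^ 53 * k ^ 2 * 2 := by ring
      _ ≤ 2 ^ k * 2 := Nat.mul_le_mul_right _ ih

theorem numAll (k : ℕ) (hk : 2000 ≤ k) :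
    4 * (k : ℝ) * (4 * k / 2 ^ k) *
      (2 ^ 53 + 2 ^ (k + 1) * 6 ^ 53 / Real.sqrt (((k + 1).choose 53 : ℕ) : ℝ)) ≤ 1 := by
  have hk0 : (0 : ℝ) < k := by
    have : (0 : ℕ) < k := by omega
    exact_mod_cast this
  have hS : (600000000000000000000000000000000000000000000000000 : ℝ) * (k : ℝ) ^ 2 / 2000 ^ 2 ≤
      Real.sqrt (((k + 1).choose 53 : ℕ) : ℝ) := by
    apply Real.le_sqrt_of_sq_le
    rw [div_pow, div_le_iff₀ (by norm_num)]
    have h := chAll k hk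
    have h' : ((600000000000000000000000000000000000000000000000000 : ℝ) ^ 2 * (k : ℝ) ^ 4 ≤
      ((k + 1).choose 53 : ℕ) * 2000 ^ 4) := by exact_mod_cast h
    calc (600000000000000000000000000000000000000000000000000 * (k : ℝ) ^ 2) ^ 2 =
        (600000000000000000000000000000000000000000000000000 : ℝ) ^ 2 * (k : ℝ) ^ 4 := by ring
      _ ≤ _ := h'
      _ = _ := by ring
  generalize Real.sqrt (((k + 1).choose 53 : ℕ) : ℝ) = S at hS
  have hP : (32 * 2 ^ 53 * (k : ℝ) ^ 2) ≤ 2 ^ k := by exact_mod_cast powAll k hk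
  rw [pow_succ (2 : ℝ) k]
  have hP0 : (0 : ℝ) < 2 ^ k := by positivity
  generalize (2 : ℝ) ^ k = P at hP hP0
  have hS0 : 0 < S := lt_of_lt_of_le (by positivity) hS
  have e : 4 * (k : ℝ) * (4 * k / P) * (2 ^ 53 + P * 2 * 6 ^ 53 / S) =
      16 * 2 ^ 53 * k ^ 2 / P + 32 * 6 ^ 53 * k ^ 2 / S := by
    field_simp
    ring
  rw [e]
  have h1 : 16 * 2 ^ 53 * (k : ℝ) ^ 2 / P ≤ 1 / 2 := by
    rw [div_le_iff₀ hP0]
    linarith
  have h2 : 32 * 6 ^ 53 * (k : ℝ) ^ 2 / S ≤ 1 / 2 := by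
    rw [div_le_iff₀ hS0]
    have hk2 : (0 : ℝ) ≤ (k : ℝ) ^ 2 := by positivity
    norm_num at hS ⊢
    linarith
  linarith

end Pool.Agent.FD39
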