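import Pool.Agent.FD39.Defs

/-! # FD39/Sym (MP_82a190_co, helper39): symmetry of the sampling

TOOL (all three statements). For `σ : Equiv.Perm (Sl k)` the map `s ↦ σ.toEmbedding.trans s` is a bijection of
`Sl k ↪ V` (for instance `Equiv.embeddingCongr σ⁻¹ (Equiv.refl V)` or `Equiv.sum_comp` with it, or `Fintype.sum_equiv`),
and `I.map (σ.toEmbedding.trans s) = (I.map σ.toEmbedding).map s` (`Finset.map_map`). Hence
`∑ s, Φ (fun I => y (I.map s)) = ∑ s, Φ (fun I => y ((I.map σ.toEmbedding).map s))` for every `Φ`. Please prove this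
first as a lemma (`sum_perm`).

* `sum_card_eq`: two finsets of slots with the same number of elements are exchanged by a permutation
  (`Equiv.extendSubtype` applied to `Finset.equivOfCardEq`, or any other way).
* `sum_swap_eq`: the permutation exchanging `a_i` and `a'_i` for `i ∈ ε` and fixing all other slots maps
  `st U ∅ B` to `st U ε B` for all `U`.
* `sum_DJ_eq`: let `e : J ≃ J'` be a bijection and let `e'` be a bijection of the slot sets
  `X.map (ea k) ∪ B.map (eb k)` and `X'.map (ea k) ∪ B'.map (eb k)` (same number of elements, `ea` and `eb` have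
  disjoint ranges). Extend `a_i ↦ a_{e i}`, `a'_i ↦ a'_{e i}` (`i ∈ J`), `x ↦ e' x` to a permutation `σ` of the slots
  (the map is injective on its domain, because `J` and `X` are disjoint, `J'` and `X'` too). It maps
  `st (J ∪ X) η B` to `st (J' ∪ X') (e η) B'` for `η ⊆ J`, and `η ↦ e η` is a bijection of the powersets preserving
  cardinalities, so `DJ y J' X' B' s = DJ y J X B (σ.toEmbedding.trans s)`.
  (It is possible to do this in two steps: first `J = J'` and then `X, B` both moved; or to
  move only one element at a time with `Equiv.swap`; any proof is fine.)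
-/

namespace Pool.Agent.FD39

open Finset

variable {V : Type*} [Fintype V] [DecidableEq V] {k : ℕ}

private theorem sum_perm (σ : Equiv.Perm (Sl k)) (Φ : (Sl k ↪ V) → ℝ) :
    ∑ s : Sl k ↪ V, Φ (σ.toEmbedding.trans s) = ∑ s : Sl k ↪ V, Φ s := by
  rw [← (Equiv.embeddingCongr σ.symm (Equiv.refl V)).sum_comp Φ]
  rfl

private theorem exists_perm {α : Type*} [Fintype α] [DecidableEq α] (P Q : Finset α) (h : P.card = Q.card) :
    ∃ σ : Equiv.Perm α, P.map σ.toEmbedding = Q := by
  classical
  let e : {x // x ∈ P} ≃ {x // x ∈ Q} := Finset.equivOfCardEq h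
  refine ⟨e.extendSubtype, ?_⟩
  apply Finset.eq_of_subset_of_card_le
  · intro y hy
    rw [Finset.mem_map] at hy
    obtain ⟨x, hx, rfl⟩ := hy
    exact e.extendSubtype_mem x hx
  · rw [Finset.card_map, h]

private theorem exists_perm_fix {α : Type*} [Fintype α] [DecidableEq α] (A P Q : Finset α) (h : P.card = Q.card)
    (hP : Disjoint A P) (hQ : Disjoint A Q) :
    ∃ σ : Equiv.Perm α, (∀ x ∈ A, σ x = x) ∧ P.map σ.toEmbedding = Q := by
  classical
  have hc : (P.subtype (fun x => x ∉ A)).card = (Q.subtype (fun x => x ∉ A)).card := by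
    have hP' : P.filter (fun x => x ∉ A) = P :=
      Finset.filter_true_of_mem (fun x hx hA => (Finset.disjoint_left.1 hP hA hx))
    have hQ' : Q.filter (fun x => x ∉ A) = Q :=
      Finset.filter_true_of_mem (fun x hx hA => (Finset.disjoint_left.1 hQ hA hx))
    rw [Finset.card_subtype, Finset.card_subtype, hP', hQ', h]
  obtain ⟨τ, hτ⟩ := exists_perm (P.subtype (fun x => x ∉ A)) (Q.subtype (fun x => x ∉ A)) hc
  refine ⟨Equiv.Perm.ofSubtype τ, ?_, ?_⟩
  · intro x hx
    exact Equiv.Perm.ofSubtype_apply_of_not_mem τ (by simpa using hx)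
  · apply Finset.eq_of_subset_of_card_le
    · intro y hy
      rw [Finset.mem_map] at hy
      obtain ⟨x, hx, rfl⟩ := hy
      have hxA : x ∉ A := fun hA => Finset.disjoint_left.1 hP hA hx
      have h1 : (Equiv.Perm.ofSubtype τ) x = (τ ⟨x, hxA⟩ : α) := Equiv.Perm.ofSubtype_apply_of_mem τ hxA
      have h2 : τ ⟨x, hxA⟩ ∈ (Q.subtype (fun x => x ∉ A)) := by
        rw [← hτ, Finset.mem_map]
        exact ⟨⟨x, hxA⟩, by rw [Finset.mem_subtype]; exact hx, rfl⟩
      rw [Finset.mem_subtype] at h2
      show (Equiv.Perm.ofSubtype τ) x ∈ Q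
      rw [h1]
      exact h2
    · rw [Finset.card_map, h]

private theorem mem_st_a (U ε : Finset (Fin (k + 1))) (B : Finset (Fin k)) (i : Fin (k + 1)) :
    (Sum.inl i : Sl k) ∈ st U ε B ↔ i ∈ U ∧ i ∉ ε := by
  simp [st, ea, ea', eb]

private theorem mem_st_a' (U ε : Finset (Fin (k + 1))) (B : Finset (Fin k)) (i : Fin (k + 1)) :
    (Sum.inr (Sum.inl i) : Sl k) ∈ st U ε B ↔ i ∈ U ∧ i ∈ ε := by
  simp [st, ea, ea', eb]

private theorem mem_st_b (U ε : Finset (Fin (k + 1))) (B : Finset (Fin k)) (i : Fin k) :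
    (Sum.inr (Sum.inr i) : Sl k) ∈ st U ε B ↔ i ∈ B := by
  simp [st, ea, ea', eb]

/-- the sum of `|g|` over the images of a set of slots depends only on its cardinality -/
theorem sum_card_eq (g : Finset V → ℝ) (I I' : Finset (Sl k)) (h : I.card = I'.card) :
    ∑ s : Sl k ↪ V, |g (I.map s)| = ∑ s : Sl k ↪ V, |g (I'.map s)| := by
  obtain ⟨σ, hσ⟩ := exists_perm I I' h
  rw [← sum_perm σ (fun s => |g (I.map s)|)]
  apply Finset.sum_congr rfl
  intro s _
  rw [← Finset.map_map, hσ]

private def swf (ε : Finset (Fin (k + 1))) : Sl k → Sl k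
  | Sum.inl i => if i ∈ ε then Sum.inr (Sum.inl i) else Sum.inl i
  | Sum.inr (Sum.inl i) => if i ∈ ε then Sum.inl i else Sum.inr (Sum.inl i)
  | Sum.inr (Sum.inr i) => Sum.inr (Sum.inr i)

private theorem swf_invol (ε : Finset (Fin (k + 1))) : Function.Involutive (swf (k := k) ε) := by
  rintro (i | i | i)
  · by_cases h : i ∈ ε <;> simp [swf, h]
  · by_cases h : i ∈ ε <;> simp [swf, h]
  · rfl

private def swp (ε : Finset (Fin (k + 1))) : Equiv.Perm (Sl k) := (swf_invol ε).toPerm

private theorem swp_apply (ε : Finset (Fin (k + 1))) (x : Sl k) : swp ε x = swf ε x := rfl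

private theorem swp_symm_apply (ε : Finset (Fin (k + 1))) (x : Sl k) : (swp ε).symm x = swf ε x := rfl

private theorem map_swp (ε U : Finset (Fin (k + 1))) (B : Finset (Fin k)) :
    (st U ∅ B).map (swp ε).toEmbedding = st U ε B := by
  ext x
  rw [Finset.mem_map_equiv, swp_symm_apply]
  rcases x with i | i | i
  · by_cases h : i ∈ ε
    · simp only [swf, h, if_true]
      rw [mem_st_a', mem_st_a]
      simp [h]
    · simp only [swf, h, if_false]
      rw [mem_st_a, mem_st_a]
      simp [h]
  · by_cases h : i ∈ ε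
    · simp only [swf, h, if_true]
      rw [mem_st_a, mem_st_a']
      simp [h]
    · simp only [swf, h, if_false]
      rw [mem_st_a', mem_st_a']
      simp [h]
  · simp only [swf]
    rw [mem_st_b, mem_st_b]

/-- switching the pairs in `ε` does not change the norm of a sum over `U` -/
theorem sum_swap_eq (g : Finset V → ℝ) (𝒰 : Finset (Finset (Fin (k + 1)))) (ε : Finset (Fin (k + 1)))
    (B : Finset (Fin k)) :
    ∑ s : Sl k ↪ V, |∑ U ∈ 𝒰, g ((st U ε B).map s)| = ∑ s : Sl k ↪ V, |∑ U ∈ 𝒰, g ((st U ∅ B).map s)| := by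
  rw [← sum_perm (swp ε) (fun s => |∑ U ∈ 𝒰, g ((st U ∅ B).map s)|)]
  apply Finset.sum_congr rfl
  intro s _
  congr 1
  apply Finset.sum_congr rfl
  intro U _
  rw [← Finset.map_map, map_swp]

private def pip (π : Equiv.Perm (Fin (k + 1))) : Equiv.Perm (Sl k) :=
  Equiv.sumCongr π (Equiv.sumCongr π (Equiv.refl _))

private theorem map_pip (π : Equiv.Perm (Fin (k + 1))) (U ε : Finset (Fin (k + 1))) (B : Finset (Fin k)) :
    (st U ε B).map (pip π).toEmbedding = st (U.map π.toEmbedding) (ε.map π.toEmbedding) B := by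
  ext x
  rw [Finset.mem_map_equiv]
  rcases x with i | i | i
  · have : (pip π).symm (Sum.inl i : Sl k) = Sum.inl (π.symm i) := rfl
    rw [this, mem_st_a, mem_st_a, Finset.mem_map_equiv, Finset.mem_map_equiv]
  · have : (pip π).symm (Sum.inr (Sum.inl i) : Sl k) = Sum.inr (Sum.inl (π.symm i)) := rfl
    rw [this, mem_st_a', mem_st_a', Finset.mem_map_equiv, Finset.mem_map_equiv]
  · have : (pip π).symm (Sum.inr (Sum.inr i) : Sl k) = Sum.inr (Sum.inr i) := rfl
    rw [this, mem_st_b, mem_st_b]

private theorem DJ_pip (g : Finset V → ℝ) (π : Equiv.Perm (Fin (k + 1))) (J X : Finset (Fin (k + 1)))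
    (B : Finset (Fin k)) (s : Sl k ↪ V) :
    DJ g J X B ((pip π).toEmbedding.trans s) = DJ g (J.map π.toEmbedding) (X.map π.toEmbedding) B s := by
  unfold DJ
  refine Finset.sum_bij' (fun η _ => η.map π.toEmbedding) (fun η _ => η.map π.symm.toEmbedding) ?_ ?_ ?_ ?_ ?_
  · intro η hη
    rw [Finset.mem_powerset] at hη ⊢
    exact Finset.map_subset_map.2 hη
  · intro η hη
    rw [Finset.mem_powerset] at hη ⊢
    intro x hx
    rw [Finset.mem_map_equiv] at hx
    have h2 := hη hx
    rw [Finset.mem_map_equiv] at h2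
    simpa using h2
  · intro η _
    ext x
    simp
  · intro η _
    ext x
    simp
  · intro η _
    rw [Finset.card_map, ← Finset.map_map, map_pip, Finset.map_union]

private theorem sum_DJ_pip (g : Finset V → ℝ) (π : Equiv.Perm (Fin (k + 1))) (J X : Finset (Fin (k + 1)))
    (B : Finset (Fin k)) :
    ∑ s : Sl k ↪ V, |DJ g (J.map π.toEmbedding) (X.map π.toEmbedding) B s| = ∑ s : Sl k ↪ V, |DJ g J X B s| := by
  rw [← sum_perm (pip π) (fun s => |DJ g J X B s|)]
  apply Finset.sum_congr rfl
  intro s _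
  rw [DJ_pip]

private theorem st_decomp (J X η : Finset (Fin (k + 1))) (B : Finset (Fin k)) (hη : η ⊆ J) (hX : Disjoint J X) :
    st (J ∪ X) η B = ((J \ η).map (ea k) ∪ η.map (ea' k)) ∪ (X.map (ea k) ∪ B.map (eb k)) := by
  ext x
  rcases x with i | i | i
  · rw [mem_st_a]
    have h1 : i ∈ η → i ∈ J := fun h => hη h
    have h2 : i ∈ J → i ∉ X := fun h => Finset.disjoint_left.1 hX h
    simp only [Finset.mem_union, Finset.mem_map, Finset.mem_sdiff, ea, ea', eb, Function.Embedding.coeFn_mk]
    simp only [Sum.inl.injEq, exists_eq_right, reduceCtorEq, and_false, exists_false, or_false, false_or]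
    tauto
  · rw [mem_st_a']
    have h1 : i ∈ η → i ∈ J := fun h => hη h
    simp only [Finset.mem_union, Finset.mem_map, Finset.mem_sdiff, ea, ea', eb, Function.Embedding.coeFn_mk]
    simp only [Sum.inr.injEq, Sum.inl.injEq, exists_eq_right, reduceCtorEq, and_false, exists_false, or_false,
      false_or]
    tauto
  · rw [mem_st_b]
    simp only [Finset.mem_union, Finset.mem_map, Finset.mem_sdiff, ea, ea', eb, Function.Embedding.coeFn_mk]
    simp only [Sum.inr.injEq, exists_eq_right, reduceCtorEq, and_false, exists_false, or_false, false_or]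

private theorem map_id_of_fix {α : Type*} [DecidableEq α] (σ : Equiv.Perm α) (A : Finset α)
    (h : ∀ x ∈ A, σ x = x) : A.map σ.toEmbedding = A := by
  ext x
  rw [Finset.mem_map]
  constructor
  · rintro ⟨y, hy, rfl⟩
    have : σ.toEmbedding y = y := h y hy
    rw [this]
    exact hy
  · intro hx
    exact ⟨x, hx, h x hx⟩

private theorem sum_DJ_same (g : Finset V → ℝ) (J X X' : Finset (Fin (k + 1))) (B B' : Finset (Fin k))
    (hX : Disjoint J X) (hX' : Disjoint J X')
    (hB : X.card + B.card = X'.card + B'.card) :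
    ∑ s : Sl k ↪ V, |DJ g J X B s| = ∑ s : Sl k ↪ V, |DJ g J X' B' s| := by
  have hd : ∀ (X : Finset (Fin (k + 1))) (B : Finset (Fin k)), Disjoint (X.map (ea k)) (B.map (eb k)) := by
    intro X B
    rw [Finset.disjoint_left]
    intro x hx hy
    simp only [Finset.mem_map, ea, eb, Function.Embedding.coeFn_mk] at hx hy
    obtain ⟨a, _, rfl⟩ := hx
    obtain ⟨b, _, hb⟩ := hy
    exact absurd hb (by simp)
  have hA : ∀ (X : Finset (Fin (k + 1))) (B : Finset (Fin k)), Disjoint J X →
      Disjoint (J.map (ea k) ∪ J.map (ea' k)) (X.map (ea k) ∪ B.map (eb k)) := by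
    intro X B hJX
    rw [Finset.disjoint_left]
    intro x hx hy
    simp only [Finset.mem_union, Finset.mem_map, ea, ea', eb, Function.Embedding.coeFn_mk] at hx hy
    rcases hx with ⟨a, ha, rfl⟩ | ⟨a, ha, rfl⟩
    · rcases hy with ⟨b, hb, h⟩ | ⟨b, hb, h⟩
      · have : b = a := by simpa using h
        subst this
        exact Finset.disjoint_left.1 hJX ha hb
      · exact absurd h (by simp)
    · rcases hy with ⟨b, hb, h⟩ | ⟨b, hb, h⟩
      · exact absurd h (by simp)
      · exact absurd h (by simp)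
  have hc : (X.map (ea k) ∪ B.map (eb k)).card = (X'.map (ea k) ∪ B'.map (eb k)).card := by
    rw [Finset.card_union_of_disjoint (hd X B), Finset.card_union_of_disjoint (hd X' B'), Finset.card_map,
      Finset.card_map, Finset.card_map, Finset.card_map, hB]
  obtain ⟨σ, hfix, hσ⟩ := exists_perm_fix (J.map (ea k) ∪ J.map (ea' k)) _ _ hc (hA X B hX) (hA X' B' hX')
  rw [← sum_perm σ (fun s => |DJ g J X B s|)]
  apply Finset.sum_congr rfl
  intro s _
  congr 1
  unfold DJ
  apply Finset.sum_congr rfl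
  intro η hη
  rw [Finset.mem_powerset] at hη
  rw [← Finset.map_map, st_decomp J X η B hη hX, st_decomp J X' η B' hη hX', Finset.map_union, hσ,
    map_id_of_fix σ ((J \ η).map (ea k) ∪ η.map (ea' k))]
  intro x hx
  apply hfix
  rw [Finset.mem_union] at hx ⊢
  rcases hx with hx | hx
  · left
    exact Finset.map_subset_map.2 Finset.sdiff_subset hx
  · right
    exact Finset.map_subset_map.2 hη hx

/-- the norm of `DJ` depends only on the number of pairs and of other points -/
theorem sum_DJ_eq (g : Finset V → ℝ) (J X J' X' : Finset (Fin (k + 1))) (B B' : Finset (Fin k))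
    (hX : Disjoint J X) (hX' : Disjoint J' X') (hJ : J.card = J'.card)
    (hB : X.card + B.card = X'.card + B'.card) :
    ∑ s : Sl k ↪ V, |DJ g J X B s| = ∑ s : Sl k ↪ V, |DJ g J' X' B' s| := by
  obtain ⟨π, hπ⟩ := exists_perm J J' hJ
  rw [← sum_DJ_pip g π J X B, hπ]
  apply sum_DJ_same
  · rw [← hπ]
    exact (Finset.disjoint_map _).2 hX
  · exact hX'
  · rw [Finset.card_map, hB]

end Pool.Agent.FD39
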